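import Mathlib

/-!
# Absolute continuity from the energies

If `(ν × ν) {|x - y| ≤ r} ≤ C r` for `0 < r ≤ 1`, then `ν` is absolutely continuous with density in `L²`: `∫ ν (B (x, r)) ² dx ≤ 2 r C (2 r)`; for a compact null set `K` in an open
set `U` Cauchy-Schwarz gives `2 r ν K ≤ (vol U) ^ (1/2) (4 C r²) ^ (1/2)`; the density is the limit of `ν (B (x, r)) / (2 r)`, and Fatou.
-/

set_option autoImplicit false

namespace Pool.Agent.H76.ND

open MeasureTheory Metric Set Filter Topology

variable {ν : Measure ℝ} [IsProbabilityMeasure ν]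

theorem ac_ball (x r : ℝ) : (fun y : ℝ => |x - y| ≤ r) = fun y => y ∈ closedBall x r := by
  funext y
  rw [mem_closedBall, dist_comm, Real.dist_eq]

theorem ac_sq {r : ℝ} (hr : 0 < r) :
    ∫⁻ x : ℝ, ν (closedBall x r) ^ 2 ≤ ENNReal.ofReal (2 * r) * (ν.prod ν) {p : ℝ × ℝ | |p.1 - p.2| ≤ 2 * r} := by
  set S : Set (ℝ × (ℝ × ℝ)) := {q | |q.1 - q.2.1| ≤ r ∧ |q.1 - q.2.2| ≤ r} with hS
  have hSm : MeasurableSet S := by
    have h1 : IsClosed {q : ℝ × (ℝ × ℝ) | |q.1 - q.2.1| ≤ r} :=
      isClosed_le (f := fun q : ℝ × (ℝ × ℝ) => |q.1 - q.2.1|) (by fun_prop) continuous_const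
    have h2 : IsClosed {q : ℝ × (ℝ × ℝ) | |q.1 - q.2.2| ≤ r} :=
      isClosed_le (f := fun q : ℝ × (ℝ × ℝ) => |q.1 - q.2.2|) (by fun_prop) continuous_const
    exact h1.measurableSet.inter h2.measurableSet
  have h1 : ∫⁻ x : ℝ, ν (closedBall x r) ^ 2 = ((volume : Measure ℝ).prod (ν.prod ν)) S := by
    rw [Measure.prod_apply hSm]
    refine lintegral_congr fun x => ?_
    have e : Prod.mk x ⁻¹' S = closedBall x r ×ˢ closedBall x r := by
      ext p
      simp only [hS, Set.mem_preimage, Set.mem_setOf_eq, Set.mem_prod, mem_closedBall, Real.dist_eq]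
      rw [abs_sub_comm x, abs_sub_comm x]
    rw [e, Measure.prod_prod, sq]
  rw [h1, Measure.prod_apply_symm hSm]
  have h2 : ∀ p : ℝ × ℝ, (volume : Measure ℝ) ((fun x => (x, p)) ⁻¹' S) ≤
      Set.indicator {p : ℝ × ℝ | |p.1 - p.2| ≤ 2 * r} (fun _ => ENNReal.ofReal (2 * r)) p := by
    intro p
    by_cases hp : |p.1 - p.2| ≤ 2 * r
    · rw [Set.indicator_of_mem (show p ∈ {p : ℝ × ℝ | |p.1 - p.2| ≤ 2 * r} from hp)]
      calc (volume : Measure ℝ) ((fun x => (x, p)) ⁻¹' S) ≤ volume (closedBall p.1 r) := by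
            refine measure_mono fun x hx => ?_
            rw [mem_closedBall, Real.dist_eq]
            exact hx.1
        _ = ENNReal.ofReal (2 * r) := Real.volume_closedBall _ _
    · rw [Set.indicator_of_notMem (show p ∉ {p : ℝ × ℝ | |p.1 - p.2| ≤ 2 * r} from hp)]
      have e : (fun x => (x, p)) ⁻¹' S = ∅ := by
        ext x
        simp only [Set.mem_preimage, Set.mem_empty_iff_false, iff_false]
        intro hx
        apply hp
        have h3 := abs_sub_le p.1 x p.2
        have h4 : |p.1 - x| ≤ r := by rw [abs_sub_comm]; exact hx.1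
        have h5 : |x - p.2| ≤ r := hx.2
        linarith
      rw [e, measure_empty]
  refine (lintegral_mono h2).trans ?_
  have hm : MeasurableSet {p : ℝ × ℝ | |p.1 - p.2| ≤ 2 * r} :=
    (isClosed_le (f := fun p : ℝ × ℝ => |p.1 - p.2|) (by fun_prop) continuous_const).measurableSet
  rw [lintegral_indicator hm, setLIntegral_const]

theorem ac_K {r : ℝ} {K U : Set ℝ} (hK : MeasurableSet K) (hU : MeasurableSet U)
    (hKU : cthickening r K ⊆ U) :
    ENNReal.ofReal (2 * r) * ν K ≤ (volume U) ^ (1 / 2 : ℝ) * (∫⁻ x : ℝ, ν (closedBall x r) ^ 2) ^ (1 / 2 : ℝ) := by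
  set S : Set (ℝ × ℝ) := {q | |q.1 - q.2| ≤ r ∧ q.2 ∈ K} with hS
  have hSm : MeasurableSet S := by
    have h1 : IsClosed {q : ℝ × ℝ | |q.1 - q.2| ≤ r} :=
      isClosed_le (f := fun q : ℝ × ℝ => |q.1 - q.2|) (by fun_prop) continuous_const
    exact h1.measurableSet.inter (measurable_snd hK)
  have h1 : ENNReal.ofReal (2 * r) * ν K = ((volume : Measure ℝ).prod ν) S := by
    rw [Measure.prod_apply_symm hSm]
    have e : ∀ y : ℝ, (volume : Measure ℝ) ((fun x => (x, y)) ⁻¹' S) = K.indicator (fun _ => ENNReal.ofReal (2 * r)) y := by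
      intro y
      by_cases hy : y ∈ K
      · rw [Set.indicator_of_mem hy]
        have e1 : (fun x => (x, y)) ⁻¹' S = closedBall y r := by
          ext x
          simp only [hS, Set.mem_preimage, Set.mem_setOf_eq, mem_closedBall, Real.dist_eq]
          exact ⟨fun h => h.1, fun h => ⟨h, hy⟩⟩
        rw [e1, Real.volume_closedBall]
      · rw [Set.indicator_of_notMem hy]
        have e1 : (fun x => (x, y)) ⁻¹' S = ∅ := by
          ext x
          simp only [Set.mem_preimage, Set.mem_empty_iff_false, iff_false]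
          exact fun h => hy h.2
        rw [e1, measure_empty]
    rw [lintegral_congr e, lintegral_indicator hK, setLIntegral_const]
  rw [h1, Measure.prod_apply hSm]
  have h2 : ∀ x : ℝ, ν (Prod.mk x ⁻¹' S) ≤ ((U.indicator fun _ => (1 : ENNReal)) * fun x => ν (closedBall x r)) x := by
    intro x
    by_cases hx : x ∈ U
    · rw [Pi.mul_apply, Set.indicator_of_mem hx, one_mul]
      refine measure_mono fun y hy => ?_
      rw [mem_closedBall, dist_comm, Real.dist_eq]
      exact hy.1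
    · have e1 : Prod.mk x ⁻¹' S = ∅ := by
        ext y
        simp only [Set.mem_preimage, Set.mem_empty_iff_false, iff_false]
        intro h
        apply hx
        apply hKU
        refine mem_cthickening_of_dist_le x y r K h.2 ?_
        rw [Real.dist_eq]
        exact h.1
      rw [e1, measure_empty]
      exact bot_le
  have hmeas : Measurable fun x : ℝ => ν (closedBall x r) := by
    have hB : MeasurableSet {q : ℝ × ℝ | |q.1 - q.2| ≤ r} :=
      (isClosed_le (f := fun q : ℝ × ℝ => |q.1 - q.2|) (by fun_prop) continuous_const).measurableSet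
    have h3 := measurable_measure_prodMk_left (ν := ν) hB
    have e : (fun x : ℝ => ν (closedBall x r)) = fun x => ν (Prod.mk x ⁻¹' {q : ℝ × ℝ | |q.1 - q.2| ≤ r}) := by
      funext x
      congr 1
      ext y
      simp only [Set.mem_preimage, Set.mem_setOf_eq, mem_closedBall]
      rw [dist_comm, Real.dist_eq]
    rw [e]
    exact h3
  refine (lintegral_mono h2).trans ?_
  refine (ENNReal.lintegral_mul_le_Lp_mul_Lq volume (Real.HolderConjugate.two_two)
    (measurable_const.indicator hU).aemeasurable hmeas.aemeasurable).trans ?_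
  have e1 : ∫⁻ a, (U.indicator fun _ => (1 : ENNReal)) a ^ (2 : ℝ) = volume U := by
    have e2 : ∀ a, (U.indicator fun _ => (1 : ENNReal)) a ^ (2 : ℝ) = U.indicator (fun _ => (1 : ENNReal)) a := by
      intro a
      by_cases ha : a ∈ U
      · rw [Set.indicator_of_mem ha, ENNReal.one_rpow]
      · rw [Set.indicator_of_notMem ha, ENNReal.zero_rpow_of_pos (by norm_num)]
    rw [lintegral_congr e2, lintegral_indicator hU, setLIntegral_const, one_mul]
  have e3 : ∫⁻ a, ν (closedBall a r) ^ (2 : ℝ) = ∫⁻ x : ℝ, ν (closedBall x r) ^ 2 := by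
    refine lintegral_congr fun a => ?_
    rw [← ENNReal.rpow_natCast]
    norm_num
  rw [e1, e3]

theorem ac_main {C : ℝ} (hC : 0 ≤ C) (h : ∀ r : ℝ, 0 < r → r ≤ 1 →
    (ν.prod ν).real {p : ℝ × ℝ | |p.1 - p.2| ≤ r} ≤ C * r) :
    ∃ g : ℝ → ℝ, MemLp g 2 volume ∧ ν = volume.withDensity fun x => ENNReal.ofReal (g x) := by
  have hen : ∀ r : ℝ, 0 < r → r ≤ 1 / 2 →
      ∫⁻ x : ℝ, ν (closedBall x r) ^ 2 ≤ ENNReal.ofReal (2 * r) ^ 2 * ENNReal.ofReal C := by
    intro r hr hr1
    refine (ac_sq hr).trans ?_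
    have h1 := h (2 * r) (by linarith) (by linarith)
    have h2 : (ν.prod ν) {p : ℝ × ℝ | |p.1 - p.2| ≤ 2 * r} ≤ ENNReal.ofReal (C * (2 * r)) := by
      rw [← ofReal_measureReal]
      exact ENNReal.ofReal_le_ofReal h1
    calc ENNReal.ofReal (2 * r) * (ν.prod ν) {p : ℝ × ℝ | |p.1 - p.2| ≤ 2 * r}
        ≤ ENNReal.ofReal (2 * r) * ENNReal.ofReal (C * (2 * r)) := by gcongr
      _ = ENNReal.ofReal (2 * r) ^ 2 * ENNReal.ofReal C := by
          rw [ENNReal.ofReal_mul hC]
          ring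
  -- absolute continuity
  have hac : ν ≪ volume := by
    refine Measure.AbsolutelyContinuous.mk fun s hs hs0 => ?_
    rw [hs.measure_eq_iSup_isCompact]
    simp only [ENNReal.iSup_eq_zero]
    intro K hKs hK
    have hK0 : volume K = 0 := measure_mono_null hKs hs0
    by_contra hne
    have hpos : 0 < ν K := pos_iff_ne_zero.2 hne
    have hKtop : ν K ≠ ⊤ := measure_ne_top ν K
    -- the bound
    have hb : ∀ ε : ENNReal, 0 < ε → ν K ≤ ε ^ (1 / 2 : ℝ) * ENNReal.ofReal C ^ (1 / 2 : ℝ) := by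
      intro ε hε
      obtain ⟨U, hKU, hU, hUε⟩ := K.exists_isOpen_lt_of_lt ε (by rw [hK0]; exact hε)
      obtain ⟨r0, hr0, hr0U⟩ := hK.exists_cthickening_subset_open hU hKU
      set r := min r0 (1 / 2) with hr
      have hrpos : 0 < r := lt_min hr0 (by norm_num)
      have hrU : cthickening r K ⊆ U := (cthickening_mono (min_le_left _ _) K).trans hr0U
      have h1 := ac_K (ν := ν) hK.measurableSet hU.measurableSet hrU
      have h2 := hen r hrpos (min_le_right _ _)
      have h3 : ENNReal.ofReal (2 * r) * ν K ≤ ENNReal.ofReal (2 * r) * (ε ^ (1 / 2 : ℝ) * ENNReal.ofReal C ^ (1 / 2 : ℝ)) := by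
        refine h1.trans ?_
        calc (volume U) ^ (1 / 2 : ℝ) * (∫⁻ x : ℝ, ν (closedBall x r) ^ 2) ^ (1 / 2 : ℝ)
            ≤ ε ^ (1 / 2 : ℝ) * (ENNReal.ofReal (2 * r) ^ 2 * ENNReal.ofReal C) ^ (1 / 2 : ℝ) := by
              gcongr
          _ = ENNReal.ofReal (2 * r) * (ε ^ (1 / 2 : ℝ) * ENNReal.ofReal C ^ (1 / 2 : ℝ)) := by
              rw [ENNReal.mul_rpow_of_nonneg _ _ (by norm_num)]
              have e : (ENNReal.ofReal (2 * r) ^ 2) ^ (1 / 2 : ℝ) = ENNReal.ofReal (2 * r) := by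
                rw [← ENNReal.rpow_natCast, ← ENNReal.rpow_mul]
                norm_num
              rw [e]
              ring
      have h4 : ENNReal.ofReal (2 * r) ≠ 0 := by
        rw [ne_eq, ENNReal.ofReal_eq_zero, not_le]
        linarith
      exact (ENNReal.mul_le_mul_iff_right h4 ENNReal.ofReal_ne_top).1 h3
    have ht : Tendsto (fun ε : ENNReal => ε ^ (1 / 2 : ℝ) * ENNReal.ofReal C ^ (1 / 2 : ℝ)) (𝓝[>] 0) (𝓝 0) := by
      have h1 : Tendsto (fun ε : ENNReal => ε ^ (1 / 2 : ℝ)) (𝓝[>] 0) (𝓝 0) := by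
        have h2 := (ENNReal.continuous_rpow_const (y := 1 / 2)).tendsto 0
        rw [ENNReal.zero_rpow_of_pos (by norm_num)] at h2
        exact h2.mono_left nhdsWithin_le_nhds
      have h3 := ENNReal.Tendsto.mul_const h1 (b := ENNReal.ofReal C ^ (1 / 2 : ℝ))
        (Or.inr (ENNReal.rpow_ne_top_of_nonneg (by norm_num) ENNReal.ofReal_ne_top))
      rwa [zero_mul] at h3
    have hle : ν K ≤ 0 := ge_of_tendsto ht (by
      filter_upwards [self_mem_nhdsWithin] with ε hε
      exact hb ε hε)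
    exact hne (le_antisymm hle bot_le)
  refine ⟨fun x => (ν.rnDeriv volume x).toReal, ?_, ?_⟩
  · -- the density is in L²
    have hmeas : ∀ r : ℝ, Measurable fun x : ℝ => ν (closedBall x r) := by
      intro r
      have hB : MeasurableSet {q : ℝ × ℝ | |q.1 - q.2| ≤ r} :=
        (isClosed_le (f := fun q : ℝ × ℝ => |q.1 - q.2|) (by fun_prop) continuous_const).measurableSet
      have h3 := measurable_measure_prodMk_left (ν := ν) hB
      have e : (fun x : ℝ => ν (closedBall x r)) = fun x => ν (Prod.mk x ⁻¹' {q : ℝ × ℝ | |q.1 - q.2| ≤ r}) := by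
        funext x
        congr 1
        ext y
        simp only [Set.mem_preimage, Set.mem_setOf_eq, mem_closedBall]
        rw [dist_comm, Real.dist_eq]
      rw [e]
      exact h3
    have hB := Besicovitch.ae_tendsto_rnDeriv ν (volume : Measure ℝ)
    have hseq : Tendsto (fun n : ℕ => 1 / ((n : ℝ) + 2)) atTop (𝓝[>] 0) := by
      refine tendsto_nhdsWithin_iff.2 ⟨?_, Eventually.of_forall fun n => ?_⟩
      · have h1 : Tendsto (fun n : ℕ => (n : ℝ) + 2) atTop atTop :=
          tendsto_atTop_add_const_right _ _ tendsto_natCast_atTop_atTop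
        exact (tendsto_inv_atTop_zero.comp h1).congr fun n => by rw [Function.comp_apply, one_div]
      · rw [Set.mem_Ioi]
        positivity
    have hlim : ∀ᵐ x ∂(volume : Measure ℝ), Tendsto (fun n : ℕ => (ν (closedBall x (1 / ((n : ℝ) + 2))) /
        ENNReal.ofReal (2 * (1 / ((n : ℝ) + 2)))) ^ 2) atTop (𝓝 (ν.rnDeriv volume x ^ 2)) := by
      filter_upwards [hB] with x hx
      have h1 := hx.comp hseq
      have h2 := (ENNReal.continuous_pow 2).continuousAt.tendsto.comp h1
      refine h2.congr fun n => ?_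
      simp only [Function.comp_apply, Real.volume_closedBall]
    have hfat : ∫⁻ x : ℝ, ν.rnDeriv volume x ^ 2 ≤ ENNReal.ofReal C := by
      have h1 : ∫⁻ x : ℝ, ν.rnDeriv volume x ^ 2 = ∫⁻ x : ℝ, liminf (fun n : ℕ => (ν (closedBall x (1 / ((n : ℝ) + 2))) /
          ENNReal.ofReal (2 * (1 / ((n : ℝ) + 2)))) ^ 2) atTop := by
        refine lintegral_congr_ae ?_
        filter_upwards [hlim] with x hx
        exact hx.liminf_eq.symm
      rw [h1]
      refine (lintegral_liminf_le fun n => ((hmeas _).div_const _).pow_const 2).trans ?_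
      refine liminf_le_of_le (by isBoundedDefault) fun b hb => ?_
      obtain ⟨n, hn⟩ := hb.exists
      refine hn.trans ?_
      have hr : (0 : ℝ) < 1 / ((n : ℝ) + 2) := by positivity
      have hr1 : 1 / ((n : ℝ) + 2) ≤ 1 / 2 := one_div_le_one_div_of_le (by norm_num) (by linarith [Nat.cast_nonneg (α := ℝ) n])
      have h2 := hen _ hr hr1
      have h3 : ENNReal.ofReal (2 * (1 / ((n : ℝ) + 2))) ≠ 0 := by
        rw [ne_eq, ENNReal.ofReal_eq_zero, not_le]
        positivity
      have e : ∀ x : ℝ, (ν (closedBall x (1 / ((n : ℝ) + 2))) / ENNReal.ofReal (2 * (1 / ((n : ℝ) + 2)))) ^ 2 =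
          ν (closedBall x (1 / ((n : ℝ) + 2))) ^ 2 * (ENNReal.ofReal (2 * (1 / ((n : ℝ) + 2))) ^ 2)⁻¹ := by
        intro x
        rw [div_eq_mul_inv, mul_pow, ENNReal.inv_pow]
      rw [lintegral_congr e, lintegral_mul_const _ ((hmeas _).pow_const 2)]
      calc (∫⁻ x : ℝ, ν (closedBall x (1 / ((n : ℝ) + 2))) ^ 2) * (ENNReal.ofReal (2 * (1 / ((n : ℝ) + 2))) ^ 2)⁻¹
          ≤ (ENNReal.ofReal (2 * (1 / ((n : ℝ) + 2))) ^ 2 * ENNReal.ofReal C) *
            (ENNReal.ofReal (2 * (1 / ((n : ℝ) + 2))) ^ 2)⁻¹ := by gcongr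
        _ = ENNReal.ofReal C := by
            rw [mul_comm (ENNReal.ofReal (2 * (1 / ((n : ℝ) + 2))) ^ 2), mul_assoc,
              ENNReal.mul_inv_cancel (pow_ne_zero 2 h3) (ENNReal.pow_ne_top ENNReal.ofReal_ne_top), mul_one]
    refine ⟨(Measure.measurable_rnDeriv ν volume).ennreal_toReal.aestronglyMeasurable, ?_⟩
    rw [eLpNorm_lt_top_iff_lintegral_rpow_enorm_lt_top (by norm_num) (by norm_num)]
    refine lt_of_le_of_lt ?_ (lt_of_le_of_lt hfat ENNReal.ofReal_lt_top)
    refine lintegral_mono fun x => ?_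
    rw [ENNReal.toReal_ofNat]
    have h1 : ‖(ν.rnDeriv volume x).toReal‖ₑ ≤ ν.rnDeriv volume x := by
      rw [Real.enorm_eq_ofReal ENNReal.toReal_nonneg]
      exact ENNReal.ofReal_toReal_le
    calc ‖(ν.rnDeriv volume x).toReal‖ₑ ^ (2 : ℝ) ≤ ν.rnDeriv volume x ^ (2 : ℝ) := by gcongr
      _ = ν.rnDeriv volume x ^ 2 := by
          rw [← ENNReal.rpow_natCast]
          norm_num
  · have h1 := Measure.withDensity_rnDeriv_eq ν volume hac
    conv_lhs => rw [← h1]
    refine withDensity_congr_ae ?_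
    filter_upwards [Measure.rnDeriv_lt_top ν volume] with x hx
    exact (ENNReal.ofReal_toReal hx.ne).symm

end Pool.Agent.H76.ND
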