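import Pool.Agent.H76.ND.Char

/-!
# The characteristic function near the parameter `1/2`

If `|ρ - 1/2| ≤ κ`, `2 X ≤ 2 ^ n`, `32 κ n² X ≤ 1`, then `ff ρ x ≤ 2 / x` for `0 < x ≤ X`: telescoping between the cosines of `x ρ ^ j` and of `x / 2 ^ j`, and
`sin (2 x) = 2 ^ n ∏ cos (x / 2 ^ i) sin (2 x / 2 ^ n)`.
-/

set_option autoImplicit false

namespace Pool.Agent.H76.ND

open Finset

theorem sin_prod (x : ℝ) (n : ℕ) :
    Real.sin (2 * x) = 2 ^ n * (∏ i ∈ range n, Real.cos (x / 2 ^ i)) * Real.sin (2 * x / 2 ^ n) := by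
  induction n with
  | zero => simp
  | succ n ih =>
    have e1 : 2 * x / 2 ^ n = 2 * (x / 2 ^ n) := by ring
    have e2 : 2 * x / 2 ^ (n + 1) = x / 2 ^ n := by
      rw [pow_succ]
      field_simp
    rw [e1, Real.sin_two_mul (x / 2 ^ n)] at ih
    rw [prod_range_succ, e2, pow_succ, ih]
    ring

theorem prod_half_le {x : ℝ} (hx : 0 < x) {n : ℕ} (hn : 2 * x ≤ 2 ^ n) :
    ∏ i ∈ range n, |Real.cos (x / 2 ^ i)| ≤ 1 / x := by
  have h1 := sin_prod x n
  have hp : (0 : ℝ) < 2 ^ n := by positivity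
  obtain ⟨u, hu⟩ : ∃ u : ℝ, u = 2 * x / 2 ^ n := ⟨_, rfl⟩
  have hu0 : 0 < u := by rw [hu]; positivity
  have hu1 : u ≤ 1 := by
    rw [hu]
    exact (div_le_one hp).2 hn
  rw [← hu] at h1
  have hs : u / 2 ≤ Real.sin u := by
    have := Real.sin_gt_sub_cube hu0
    have h3 : u ^ 3 ≤ u := by
      calc u ^ 3 = u * (u * u) := by ring
        _ ≤ u * 1 := mul_le_mul_of_nonneg_left (by nlinarith) hu0.le
        _ = u := mul_one u
    linarith
  have h2 : |Real.sin (2 * x)| ≤ 1 := Real.abs_sin_le_one _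
  rw [h1, abs_mul, abs_mul, abs_prod, abs_of_pos hp, abs_of_pos (lt_of_lt_of_le (by linarith) hs)] at h2
  have hP : 0 ≤ ∏ i ∈ range n, |Real.cos (x / 2 ^ i)| := prod_nonneg fun _ _ => abs_nonneg _
  rw [le_div_iff₀ hx]
  have h3 : 2 ^ n * (∏ i ∈ range n, |Real.cos (x / 2 ^ i)|) * (u / 2) ≤ 1 := by
    refine le_trans ?_ h2
    exact mul_le_mul_of_nonneg_left hs (mul_nonneg hp.le hP)
  have h4 : 2 ^ n * (∏ i ∈ range n, |Real.cos (x / 2 ^ i)|) * (u / 2) = (∏ i ∈ range n, |Real.cos (x / 2 ^ i)|) * x := by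
    rw [hu]
    field_simp
  rw [← h4]
  exact h3

theorem tele_half {ρ : ℝ} (h0 : 0 ≤ ρ) (h1 : ρ < 1) {x : ℝ} (hx : 0 ≤ x) (n : ℕ) :
    ff ρ x ≤ (∏ i ∈ range n, |Real.cos (x / 2 ^ i)|) * ff ρ (x * ρ ^ n) +
      ∑ j ∈ range n, x * |ρ ^ j - (1 / 2) ^ j| * ff ρ (x * ρ ^ (j + 1)) := by
  induction n with
  | zero => simp
  | succ n ih =>
    refine ih.trans ?_
    rw [prod_range_succ, sum_range_succ]
    have hself : ff ρ (x * ρ ^ n) = |Real.cos (x * ρ ^ n)| * ff ρ (x * ρ ^ (n + 1)) := by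
      have h := ff_self h0 h1 1 (x * ρ ^ n)
      rw [PC, prod_range_one, pow_zero, mul_one, pow_one] at h
      rw [h]
      congr 2
      rw [pow_succ]
      ring
    have hf := ff_nonneg ρ (x * ρ ^ (n + 1))
    have hcos : |Real.cos (x * ρ ^ n)| ≤ |Real.cos (x / 2 ^ n)| + x * |ρ ^ n - (1 / 2) ^ n| := by
      have h2 := Real.abs_cos_sub_cos_le (x / 2 ^ n) (x * ρ ^ n)
      have e : x / 2 ^ n - x * ρ ^ n = -(x * (ρ ^ n - (1 / 2) ^ n)) := by
        rw [one_div_pow]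
        ring
      rw [e, abs_neg, abs_mul, abs_of_nonneg hx] at h2
      have h3 := abs_sub_abs_le_abs_sub (Real.cos (x * ρ ^ n)) (Real.cos (x / 2 ^ n))
      rw [abs_sub_comm] at h3
      linarith
    have hP : 0 ≤ ∏ i ∈ range n, |Real.cos (x / 2 ^ i)| := prod_nonneg fun _ _ => abs_nonneg _
    have hP1 : ∏ i ∈ range n, |Real.cos (x / 2 ^ i)| ≤ 1 := prod_le_one (fun _ _ => abs_nonneg _) fun _ _ => Real.abs_cos_le_one _
    have hd : 0 ≤ x * |ρ ^ n - (1 / 2) ^ n| := mul_nonneg hx (abs_nonneg _)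
    rw [hself]
    have h4 : (∏ i ∈ range n, |Real.cos (x / 2 ^ i)|) * (|Real.cos (x * ρ ^ n)| * ff ρ (x * ρ ^ (n + 1))) ≤
        (∏ i ∈ range n, |Real.cos (x / 2 ^ i)|) * |Real.cos (x / 2 ^ n)| * ff ρ (x * ρ ^ (n + 1)) +
          x * |ρ ^ n - (1 / 2) ^ n| * ff ρ (x * ρ ^ (n + 1)) := by
      have h5 : (∏ i ∈ range n, |Real.cos (x / 2 ^ i)|) * |Real.cos (x * ρ ^ n)| ≤
          (∏ i ∈ range n, |Real.cos (x / 2 ^ i)|) * |Real.cos (x / 2 ^ n)| + x * |ρ ^ n - (1 / 2) ^ n| := by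
        calc (∏ i ∈ range n, |Real.cos (x / 2 ^ i)|) * |Real.cos (x * ρ ^ n)|
            ≤ (∏ i ∈ range n, |Real.cos (x / 2 ^ i)|) * (|Real.cos (x / 2 ^ n)| + x * |ρ ^ n - (1 / 2) ^ n|) :=
              mul_le_mul_of_nonneg_left hcos hP
          _ = (∏ i ∈ range n, |Real.cos (x / 2 ^ i)|) * |Real.cos (x / 2 ^ n)| +
              (∏ i ∈ range n, |Real.cos (x / 2 ^ i)|) * (x * |ρ ^ n - (1 / 2) ^ n|) := by ring
          _ ≤ _ := by
              have := mul_le_mul_of_nonneg_right hP1 hd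
              linarith
      have h6 := mul_le_mul_of_nonneg_right h5 hf
      calc (∏ i ∈ range n, |Real.cos (x / 2 ^ i)|) * (|Real.cos (x * ρ ^ n)| * ff ρ (x * ρ ^ (n + 1)))
          = (∏ i ∈ range n, |Real.cos (x / 2 ^ i)|) * |Real.cos (x * ρ ^ n)| * ff ρ (x * ρ ^ (n + 1)) := by ring
        _ ≤ _ := h6
        _ = _ := by ring
    linarith

theorem half_bound {ρ κ X : ℝ} {n : ℕ} (hρ : |ρ - 1 / 2| ≤ κ) (hX : 1 ≤ X) (hn : 2 * X ≤ 2 ^ n)
    (hκ : 32 * κ * n ^ 2 * X ≤ 1) {x : ℝ} (hx0 : 0 < x) (hx : x ≤ X) : ff ρ x ≤ 2 / x := by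
  have hκ0 : 0 ≤ κ := (abs_nonneg _).trans hρ
  have hn1 : (1 : ℝ) ≤ n := by
    have : n ≠ 0 := by
      rintro rfl
      rw [pow_zero] at hn
      linarith
    exact_mod_cast Nat.one_le_iff_ne_zero.2 this
  have hκn : κ * n ≤ 1 / 16 := by
    have h1 : κ * n ≤ κ * n ^ 2 * X := by
      have h2 : (n : ℝ) ≤ n ^ 2 * X := by nlinarith
      calc κ * n ≤ κ * (n ^ 2 * X) := mul_le_mul_of_nonneg_left h2 hκ0
        _ = κ * n ^ 2 * X := by ring
    linarith
  have hκ1 : κ ≤ 1 / 16 := by nlinarith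
  have hρ' := abs_le.1 hρ
  have hr0 : 0 < ρ := by linarith
  have hr1 : ρ ≤ 2 / 3 := by linarith
  have hr2 : ρ < 1 := by linarith
  -- the powers
  have hlow : ∀ j : ℕ, j < n → (1 / 2) ^ (j + 2) ≤ ρ ^ (j + 1) := by
    intro j hj
    have hjn : ((j + 1 : ℕ) : ℝ) ≤ n := by exact_mod_cast hj
    have h1 : (1 / 2 - κ) ^ (j + 1) ≤ ρ ^ (j + 1) := pow_le_pow_left₀ (by linarith) (by linarith) _
    have h2 : 1 + ((j + 1 : ℕ) : ℝ) * (-(2 * κ)) ≤ (1 + -(2 * κ)) ^ (j + 1) :=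
      one_add_mul_le_pow (by linarith) (j + 1)
    have h3 : ((j + 1 : ℕ) : ℝ) * κ ≤ 1 / 16 := by
      have := mul_le_mul_of_nonneg_right hjn hκ0
      linarith
    have h4 : (1 / 2 : ℝ) ≤ (1 + -(2 * κ)) ^ (j + 1) := by linarith
    have h5 : (1 / 2 - κ) ^ (j + 1) = (1 / 2) ^ (j + 1) * (1 + -(2 * κ)) ^ (j + 1) := by
      rw [← mul_pow]
      congr 1
      ring
    calc (1 / 2 : ℝ) ^ (j + 2) = (1 / 2) ^ (j + 1) * (1 / 2) := by rw [← pow_succ]
      _ ≤ (1 / 2) ^ (j + 1) * (1 + -(2 * κ)) ^ (j + 1) := mul_le_mul_of_nonneg_left h4 (by positivity)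
      _ = (1 / 2 - κ) ^ (j + 1) := h5.symm
      _ ≤ _ := h1
  have hdiff : ∀ j : ℕ, j < n → |ρ ^ j - (1 / 2) ^ j| ≤ 4 * j * κ * (1 / 2) ^ j := by
    intro j hj
    rcases Nat.eq_zero_or_pos j with rfl | hj0
    · simp
    obtain ⟨i, rfl⟩ : ∃ i, j = i + 1 := ⟨j - 1, by omega⟩
    have h1 := abs_pow_sub_pow_le ρ (1 / 2) (i + 1)
    have hmax : max |ρ| |1 / 2| ≤ 1 / 2 + κ := by
      refine max_le ?_ ?_
      · rw [abs_of_pos hr0]
        linarith
      · rw [abs_of_pos (by norm_num)]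
        linarith
    have h2 : max |ρ| |1 / 2| ^ (i + 1 - 1) ≤ (1 / 2 + κ) ^ i := by
      rw [Nat.add_sub_cancel]
      exact pow_le_pow_left₀ (le_max_of_le_left (abs_nonneg _)) hmax i
    have hin : ((i : ℕ) : ℝ) ≤ n := by
      have : i ≤ n := by omega
      exact_mod_cast this
    have h3 : (1 / 2 + κ) ^ i ≤ 2 * (1 / 2) ^ i := by
      have e1 : (1 / 2 + κ) ^ i = (1 / 2) ^ i * (1 + 2 * κ) ^ i := by
        rw [← mul_pow]
        congr 1
        ring
      have h4 : (1 + 2 * κ) ^ i ≤ 2 := by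
        calc (1 + 2 * κ) ^ i ≤ Real.exp (2 * κ) ^ i := by
              refine pow_le_pow_left₀ (by linarith) ?_ i
              linarith [Real.add_one_le_exp (2 * κ)]
          _ = Real.exp (i * (2 * κ)) := by rw [← Real.exp_nat_mul]
          _ ≤ Real.exp (1 / 4) := by
              refine Real.exp_le_exp.2 ?_
              have := mul_le_mul_of_nonneg_right hin hκ0
              linarith
          _ ≤ 2 := by
              have h5 := Real.exp_bound_div_one_sub_of_interval (x := 1 / 4) (by norm_num) (by norm_num)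
              refine h5.trans ?_
              norm_num
      rw [e1, mul_comm]
      exact mul_le_mul_of_nonneg_right h4 (by positivity)
    have hj1 : (0 : ℝ) ≤ ((i + 1 : ℕ) : ℝ) := Nat.cast_nonneg _
    calc |ρ ^ (i + 1) - (1 / 2) ^ (i + 1)| ≤ |ρ - 1 / 2| * (i + 1 : ℕ) * max |ρ| |1 / 2| ^ (i + 1 - 1) := h1
      _ ≤ κ * (i + 1 : ℕ) * (2 * (1 / 2) ^ i) := by
          refine mul_le_mul (mul_le_mul_of_nonneg_right hρ hj1) (h2.trans h3) ?_ (mul_nonneg hκ0 hj1)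
          exact pow_nonneg (le_max_of_le_left (abs_nonneg _)) _
      _ = 4 * (i + 1 : ℕ) * κ * (1 / 2) ^ (i + 1) := by
          rw [pow_succ]
          ring
  -- induction
  have hind : ∀ m : ℕ, ∀ x : ℝ, 0 < x → x ≤ X → x ≤ (3 / 2) ^ m → ff ρ x ≤ 2 / x := by
    intro m
    induction m with
    | zero =>
      intro x hx0 _ hx1
      rw [pow_zero] at hx1
      have h1 := ff_le_one hr0.le hr2 x
      rw [le_div_iff₀ hx0]
      have h2 := ff_nonneg ρ x
      nlinarith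
    | succ m ih =>
      intro x hx0 hxX hx1
      have h1 := tele_half hr0.le hr2 hx0.le n
      have h2 := prod_half_le hx0 (n := n) (by linarith)
      have hP : 0 ≤ ∏ i ∈ range n, |Real.cos (x / 2 ^ i)| := prod_nonneg fun _ _ => abs_nonneg _
      have h3 : (∏ i ∈ range n, |Real.cos (x / 2 ^ i)|) * ff ρ (x * ρ ^ n) ≤ 1 / x := by
        have h4 := ff_le_one hr0.le hr2 (x * ρ ^ n)
        calc (∏ i ∈ range n, |Real.cos (x / 2 ^ i)|) * ff ρ (x * ρ ^ n)
            ≤ (∏ i ∈ range n, |Real.cos (x / 2 ^ i)|) * 1 := mul_le_mul_of_nonneg_left h4 hP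
          _ ≤ 1 / x := by rw [mul_one]; exact h2
      have h5 : ∑ j ∈ range n, x * |ρ ^ j - (1 / 2) ^ j| * ff ρ (x * ρ ^ (j + 1)) ≤
          ∑ j ∈ range n, 32 * κ * n := by
        refine sum_le_sum fun j hj => ?_
        rw [mem_range] at hj
        have hpow : 0 < ρ ^ (j + 1) := pow_pos hr0 _
        have hpow1 : ρ ^ (j + 1) ≤ 2 / 3 := by
          calc ρ ^ (j + 1) = ρ ^ j * ρ := pow_succ _ _
            _ ≤ 1 * ρ := mul_le_mul_of_nonneg_right (pow_le_one₀ hr0.le hr2.le) hr0.le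
            _ ≤ 2 / 3 := by linarith
        have hy0 : 0 < x * ρ ^ (j + 1) := mul_pos hx0 hpow
        have hy1 : x * ρ ^ (j + 1) ≤ x * (2 / 3) := mul_le_mul_of_nonneg_left hpow1 hx0.le
        have h6 := ih (x * ρ ^ (j + 1)) hy0 (by linarith) (by rw [pow_succ] at hx1; linarith)
        have h7 : 2 / (x * ρ ^ (j + 1)) ≤ 2 / (x * (1 / 2) ^ (j + 2)) := by
          refine div_le_div_of_nonneg_left (by norm_num) (by positivity) ?_
          exact mul_le_mul_of_nonneg_left (hlow j hj) hx0.le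
        have hjn : (j : ℝ) ≤ n := by exact_mod_cast hj.le
        have hj0 : (0 : ℝ) ≤ j := Nat.cast_nonneg _
        calc x * |ρ ^ j - (1 / 2) ^ j| * ff ρ (x * ρ ^ (j + 1))
            ≤ x * (4 * j * κ * (1 / 2) ^ j) * (2 / (x * (1 / 2) ^ (j + 2))) := by
              refine mul_le_mul (mul_le_mul_of_nonneg_left (hdiff j hj) hx0.le) (h6.trans h7) (ff_nonneg _ _) ?_
              positivity
          _ = 32 * κ * j := by
              rw [pow_add]
              field_simp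
              norm_num
              ring
          _ ≤ 32 * κ * n := mul_le_mul_of_nonneg_left hjn (by linarith)
      rw [sum_const, card_range, nsmul_eq_mul] at h5
      have h8 : (n : ℝ) * (32 * κ * n) ≤ 1 / x := by
        rw [le_div_iff₀ hx0]
        have h9 : (n : ℝ) * (32 * κ * n) * x ≤ (n : ℝ) * (32 * κ * n) * X :=
          mul_le_mul_of_nonneg_left hxX (by positivity)
        nlinarith
      have h10 : (2 : ℝ) / x = 1 / x + 1 / x := by ring
      rw [h10]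
      linarith
  obtain ⟨m, hm⟩ := pow_unbounded_of_one_lt x (show (1 : ℝ) < 3 / 2 by norm_num)
  exact hind m x hx0 hx hm.le

end Pool.Agent.H76.ND
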