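import Pool.Agent.H76.ND.Grow
import Pool.Agent.H76.ND.Half

/-!
# The bounds for the energies

`l > 0`, `|l ^ 2 - 1/2| ≤ κ`, `1152 ≤ X`, `2 X ≤ 2 ^ n`, `32 κ n² X ≤ 1`: the energy of `nu l` up to frequency `T` is at most `21 T ^ (373248 / X³)`, and
`∫_0^T ff l ≤ 20 T ^ (4608 / X)`.
-/

set_option autoImplicit false

namespace Pool.Agent.H76.ND

open Finset

theorem GG_base {l : ℝ} (h0 : 0 ≤ l) (h1 : l < 1) {Y c : ℝ} (hY : 1 ≤ Y) (hc : 0 ≤ c)
    (h : ∀ x, 1 ≤ x → x ≤ Y → ff l x ^ 2 ≤ c / x ^ 2) : GG l Y ≤ 1 + c := by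
  have hcf : Continuous fun t => ff l t ^ 2 := (continuous_ff h0 h1).pow 2
  have h2 := intervalIntegral.integral_add_adjacent_intervals (hcf.intervalIntegrable (μ := MeasureTheory.volume) 0 1)
    (hcf.intervalIntegrable (μ := MeasureTheory.volume) 1 Y)
  have h3 : ∫ t in (0 : ℝ)..1, ff l t ^ 2 ≤ 1 := by
    have h4 : ∫ t in (0 : ℝ)..1, ff l t ^ 2 ≤ ∫ _t in (0 : ℝ)..1, (1 : ℝ) := by
      refine intervalIntegral.integral_mono_on zero_le_one (hcf.intervalIntegrable _ _) (by simp) fun t _ => ?_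
      exact pow_le_one₀ (ff_nonneg l t) (ff_le_one h0 h1 t)
    simpa using h4
  have h5 : ∫ t in (1 : ℝ)..Y, ff l t ^ 2 ≤ c := by
    have hd : ∀ x ∈ Set.uIcc 1 Y, HasDerivAt (fun x : ℝ => -(c / x)) (c / x ^ 2) x := by
      intro x hx
      rw [Set.uIcc_of_le hY] at hx
      have hx0 : x ≠ 0 := by linarith [hx.1]
      have h6 := ((hasDerivAt_id x).inv hx0).const_mul (-c)
      refine (h6.congr_deriv ?_).congr_of_eventuallyEq ?_
      · simp only [id]
        field_simp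
      · refine Filter.Eventually.of_forall fun y => ?_
        simp only [Pi.inv_apply, id]
        rw [div_eq_mul_inv]
        ring
    have hci : ContinuousOn (fun x : ℝ => c / x ^ 2) (Set.uIcc 1 Y) := by
      rw [Set.uIcc_of_le hY]
      refine continuousOn_const.div (continuousOn_pow 2) fun x hx => ?_
      have : x ≠ 0 := by linarith [hx.1]
      positivity
    have h7 := intervalIntegral.integral_eq_sub_of_hasDerivAt hd hci.intervalIntegrable
    have h8 : ∫ t in (1 : ℝ)..Y, ff l t ^ 2 ≤ ∫ t in (1 : ℝ)..Y, c / t ^ 2 := by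
      refine intervalIntegral.integral_mono_on hY (hcf.intervalIntegrable _ _) hci.intervalIntegrable fun t ht => ?_
      exact h t ht.1 ht.2
    rw [h7] at h8
    have h9 : 0 ≤ c / Y := by positivity
    rw [div_one] at h8
    linarith
  unfold GG
  linarith

section

variable {l κ X : ℝ} {n : ℕ} (hl : 0 < l) (hκ : |l ^ 2 - 1 / 2| ≤ κ) (hX : 1152 ≤ X) (hn : 2 * X ≤ 2 ^ n)
  (hc : 32 * κ * n ^ 2 * X ≤ 1)

include hl hκ hX hn hc

theorem bnd_l : 7 / 10 ≤ l ∧ l ≤ 3 / 4 ∧ 2 / 5 ≤ l ^ 2 ∧ l ^ 2 ≤ 3 / 4 := by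
  have hκ0 : 0 ≤ κ := (abs_nonneg _).trans hκ
  have hn1 : (1 : ℝ) ≤ n := by
    have : n ≠ 0 := by
      rintro rfl
      rw [pow_zero] at hn
      linarith
    exact_mod_cast Nat.one_le_iff_ne_zero.2 this
  have h1 : κ ≤ 1 / 1000 := by
    have h2 : (1 : ℝ) ≤ n ^ 2 := one_le_pow₀ hn1
    have h3 : κ * 1152 ≤ κ * (n ^ 2 * X) := by
      refine mul_le_mul_of_nonneg_left ?_ hκ0
      nlinarith
    nlinarith
  have h2 := abs_le.1 hκ
  refine ⟨?_, ?_, by linarith, by linarith⟩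
  · by_contra h
    push Not at h
    nlinarith
  · by_contra h
    push Not at h
    nlinarith

theorem bnd_rho {x : ℝ} (hx0 : 0 < x) (hx : x ≤ X) : ff (l ^ 2) x ≤ 2 / x :=
  half_bound hκ (by linarith) hn hc hx0 hx

theorem bnd_ff {x : ℝ} (hx0 : 0 < x) (hx : x ≤ X) : ff l x ≤ 6 / x ^ 2 := by
  obtain ⟨h1, h2, _, _⟩ := bnd_l hl hκ hX hn hc
  rw [ff_split hl.le (by linarith)]
  have h3 := bnd_rho hl hκ hX hn hc hx0 hx
  have h4 : x * l ≤ x := mul_le_of_le_one_right hx0.le (by linarith)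
  have h5 := bnd_rho hl hκ hX hn hc (mul_pos hx0 hl) (h4.trans hx)
  calc ff (l ^ 2) x * ff (l ^ 2) (x * l) ≤ (2 / x) * (2 / (x * l)) :=
        mul_le_mul h3 h5 (ff_nonneg _ _) (by positivity)
    _ = (4 / l) / x ^ 2 := by field_simp; ring
    _ ≤ 6 / x ^ 2 := by
        refine div_le_div_of_nonneg_right ?_ (by positivity)
        rw [div_le_iff₀ hl]
        linarith

theorem GG_rho {T : ℝ} (hT : 1 ≤ T) : GG (l ^ 2) T ≤ 15 * T ^ (4608 / X) := by
  obtain ⟨h1, h2, h3, h4⟩ := bnd_l hl hκ hX hn hc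
  have hX0 : 0 < X := by linarith
  have hb2 : (l ^ 2)⁻¹ ≤ 5 / 2 := by
    rw [inv_le_comm₀ (by positivity) (by norm_num)]
    linarith
  have hG : GG (l ^ 2) (X / 3) ≤ 1 + 4 := by
    refine GG_base (by positivity) (by linarith) (by linarith) (by norm_num) fun x hx1 hx2 => ?_
    have h5 := bnd_rho hl hκ hX hn hc (x := x) (by linarith) (by linarith)
    calc ff (l ^ 2) x ^ 2 ≤ (2 / x) ^ 2 := pow_le_pow_left₀ (ff_nonneg _ _) h5 2
      _ = 4 / x ^ 2 := by rw [div_pow]; norm_num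
  have hs : ∀ x, X / 3 ≤ x → x ≤ X / 3 * (l ^ 2)⁻¹ → ff (l ^ 2) x ≤ 6 / X := by
    intro x hx1 hx2
    have hx0 : 0 < x := by linarith
    have hxX : x ≤ X := by nlinarith
    refine (bnd_rho hl hκ hX hn hc hx0 hxX).trans ?_
    rw [div_le_div_iff₀ hx0 hX0]
    linarith
  have he : 96 * (X / 3) * (6 / X) ^ 2 = 1152 / X := by
    field_simp
    norm_num
  have he2 : 384 * (X / 3) * (6 / X) ^ 2 = 4608 / X := by
    field_simp
    norm_num
  have h6 := grow h3 h4 (show 1 ≤ X / 3 by linarith) hs (by rw [he, div_le_one hX0]; exact hX) hT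
  rw [he2] at h6
  have h7 : 0 ≤ T ^ (4608 / X) := Real.rpow_nonneg (by linarith) _
  nlinarith

theorem GG_l {T : ℝ} (hT : 1 ≤ T) : GG l T ≤ 21 * T ^ (373248 / X ^ 3) := by
  obtain ⟨h1, h2, h3, h4⟩ := bnd_l hl hκ hX hn hc
  have hX0 : 0 < X := by linarith
  have hb2 : l⁻¹ ≤ 5 / 2 := by
    rw [inv_le_comm₀ (by positivity) (by norm_num)]
    linarith
  have hG : GG l (X / 3) ≤ 1 + 6 := by
    refine GG_base hl.le (by linarith) (by linarith) (by norm_num) fun x hx1 hx2 => ?_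
    have h5 := bnd_ff hl hκ hX hn hc (x := x) (by linarith) (by linarith)
    have h6 := ff_le_one hl.le (by linarith) x
    have h7 := ff_nonneg l x
    nlinarith
  have hs : ∀ x, X / 3 ≤ x → x ≤ X / 3 * l⁻¹ → ff l x ≤ 54 / X ^ 2 := by
    intro x hx1 hx2
    have hx0 : 0 < x := by linarith
    have hxX : x ≤ X := by nlinarith
    refine (bnd_ff hl hκ hX hn hc hx0 hxX).trans ?_
    rw [div_le_div_iff₀ (by positivity) (by positivity)]
    nlinarith
  have he : 96 * (X / 3) * (54 / X ^ 2) ^ 2 = 93312 / X ^ 3 := by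
    field_simp
    norm_num
  have he2 : 384 * (X / 3) * (54 / X ^ 2) ^ 2 = 373248 / X ^ 3 := by
    field_simp
    norm_num
  have h8 : 93312 / X ^ 3 ≤ 1 := by
    rw [div_le_one (by positivity)]
    have : (1152 : ℝ) ^ 3 ≤ X ^ 3 := pow_le_pow_left₀ (by norm_num) hX 3
    linarith
  have h6 := grow (show 2 / 5 ≤ l by linarith) h2 (show 1 ≤ X / 3 by linarith) hs (by rw [he]; exact h8) hT
  rw [he2] at h6
  have h7 : 0 ≤ T ^ (373248 / X ^ 3) := Real.rpow_nonneg (by linarith) _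
  nlinarith

theorem L1_l {T : ℝ} (hT : 1 ≤ T) : ∫ t in (0 : ℝ)..T, ff l t ≤ 20 * T ^ (4608 / X) := by
  obtain ⟨h1, h2, h3, h4⟩ := bnd_l hl hκ hX hn hc
  have hr0 : 0 ≤ l ^ 2 := by positivity
  have hr1 : l ^ 2 < 1 := by linarith
  have hc1 : Continuous fun t => ff (l ^ 2) t ^ 2 := (continuous_ff hr0 hr1).pow 2
  have hc2 : Continuous fun t => ff (l ^ 2) (t * l) ^ 2 := ((continuous_ff hr0 hr1).comp (by fun_prop)).pow 2
  have h5 : ∫ t in (0 : ℝ)..T, ff l t ≤ ∫ t in (0 : ℝ)..T, (1 / 2) * (ff (l ^ 2) t ^ 2 + ff (l ^ 2) (t * l) ^ 2) := by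
    refine intervalIntegral.integral_mono_on (by linarith) ((continuous_ff hl.le (by linarith)).intervalIntegrable _ _)
      ((continuous_const.mul (hc1.add hc2)).intervalIntegrable _ _) fun t _ => ?_
    rw [ff_split hl.le (by linarith)]
    nlinarith [sq_nonneg (ff (l ^ 2) t - ff (l ^ 2) (t * l))]
  rw [intervalIntegral.integral_const_mul, intervalIntegral.integral_add (hc1.intervalIntegrable _ _)
    (hc2.intervalIntegrable _ _), intervalIntegral.integral_comp_mul_right (fun t => ff (l ^ 2) t ^ 2) hl.ne', zero_mul] at h5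
  have h6 : ∫ t in (0 : ℝ)..(T * l), ff (l ^ 2) t ^ 2 ≤ GG (l ^ 2) T :=
    GG_mono hr0 hr1 (mul_le_of_le_one_right (by linarith) (by linarith))
  have h7 := GG_rho hl hκ hX hn hc hT
  have h8 : 0 ≤ GG (l ^ 2) T := GG_nonneg _ (by linarith)
  have h9 : l⁻¹ ≤ 3 / 2 := by
    rw [inv_le_comm₀ hl (by norm_num)]
    linarith
  have h10 : l⁻¹ • ∫ t in (0 : ℝ)..(T * l), ff (l ^ 2) t ^ 2 ≤ 3 / 2 * GG (l ^ 2) T := by
    rw [smul_eq_mul]
    calc l⁻¹ * ∫ t in (0 : ℝ)..(T * l), ff (l ^ 2) t ^ 2 ≤ l⁻¹ * GG (l ^ 2) T :=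
          mul_le_mul_of_nonneg_left h6 (by positivity)
      _ ≤ 3 / 2 * GG (l ^ 2) T := mul_le_mul_of_nonneg_right h9 h8
  have h11 : ∫ t in (0 : ℝ)..T, ff (l ^ 2) t ^ 2 = GG (l ^ 2) T := rfl
  rw [h11] at h5
  have h12 : 0 ≤ T ^ (4608 / X) := Real.rpow_nonneg (by linarith) _
  linarith

end

end Pool.Agent.H76.ND
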