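import Pool.Agent.H76.ND.Defs

/-!
# The characteristic function of the Bernoulli convolution

`ff l t = |charFun (nu l) t|` is the limit of the products `∏ |cos (t l ^ j)|`, it is self-similar and continuous, and at least `1/2` near `0`.
-/

set_option autoImplicit false

namespace Pool.Agent.H76.ND

open MeasureTheory ProbabilityTheory Filter Topology Finset

instance : IsProbabilityMeasure coin := by
  constructor
  rw [coin, Measure.smul_apply, Measure.add_apply, Measure.dirac_apply_of_mem (Set.mem_univ _),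
    Measure.dirac_apply_of_mem (Set.mem_univ _), smul_eq_mul, one_add_one_eq_two]
  exact ENNReal.inv_mul_cancel (by norm_num) (by norm_num)

/-- the sign of a coin -/
noncomputable def sgn (b : Bool) : ℝ := if b then 1 else -1

theorem abs_sgn (b : Bool) : |sgn b| = 1 := by
  cases b <;> simp [sgn]

/-- partial sums of the series -/
noncomputable def ps (l : ℝ) (N : ℕ) (ω : ℕ → Bool) : ℝ := ∑ n ∈ range N, sgn (ω n) * l ^ n

theorem measurable_sgn : Measurable sgn := measurable_from_top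

theorem measurable_ps (l : ℝ) (N : ℕ) : Measurable (ps l N) := by
  unfold ps
  refine Finset.measurable_fun_sum _ fun n _ => ?_
  exact (measurable_sgn.comp (measurable_pi_apply n)).mul_const _

theorem summable_rs {l : ℝ} (h0 : 0 ≤ l) (h1 : l < 1) (ω : ℕ → Bool) : Summable fun n => sgn (ω n) * l ^ n := by
  refine Summable.of_norm_bounded (summable_geometric_of_lt_one h0 h1) fun n => ?_
  rw [norm_mul, Real.norm_eq_abs, abs_sgn, one_mul, Real.norm_eq_abs, abs_of_nonneg (pow_nonneg h0 n)]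

theorem tendsto_ps {l : ℝ} (h0 : 0 ≤ l) (h1 : l < 1) (ω : ℕ → Bool) :
    Tendsto (fun N => ps l N ω) atTop (𝓝 (rs l ω)) :=
  (summable_rs h0 h1 ω).hasSum.tendsto_sum_nat

theorem measurable_rs {l : ℝ} (h0 : 0 ≤ l) (h1 : l < 1) : Measurable (rs l) :=
  measurable_of_tendsto_metrizable (measurable_ps l) (tendsto_pi_nhds.2 fun ω => tendsto_ps h0 h1 ω)

theorem nu_prob {l : ℝ} (h0 : 0 ≤ l) (h1 : l < 1) : IsProbabilityMeasure (nu l) :=
  Measure.isProbabilityMeasure_map (measurable_rs h0 h1).aemeasurable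

theorem integral_coin (f : Bool → ℂ) : ∫ b, f b ∂coin = (f true + f false) / 2 := by
  rw [coin, integral_smul_measure, integral_add_measure (by simp) (by simp),
    integral_dirac, integral_dirac]
  rw [ENNReal.toReal_inv, ENNReal.toReal_ofNat, Complex.real_smul]
  push_cast
  ring

theorem charFun_sgn (t : ℝ) : charFun (coin.map sgn) t = (Real.cos t : ℂ) := by
  rw [charFun_apply_real, integral_map measurable_sgn.aemeasurable (by fun_prop), integral_coin, Complex.ofReal_cos,
    Complex.cos]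
  have e1 : ((sgn true : ℝ) : ℂ) = 1 := by simp [sgn]
  have e2 : ((sgn false : ℝ) : ℂ) = -1 := by simp [sgn]
  rw [e1, e2]
  congr 3
  · ring_nf
  · ring_nf

theorem integral_ps (l t : ℝ) (N : ℕ) :
    ∫ ω, Complex.exp (t * ps l N ω * Complex.I) ∂(Measure.infinitePi fun _ : ℕ => coin) =
      ((∏ n ∈ range N, Real.cos (t * l ^ n) : ℝ) : ℂ) := by
  have hind0 : iIndepFun (fun (k : ℕ) (ω : ℕ → Bool) => ω k) (Measure.infinitePi fun _ : ℕ => coin) :=
    iIndepFun_infinitePi (X := fun _ x => x) (fun _ => measurable_id)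
  have hind : iIndepFun (fun (k : ℕ) (ω : ℕ → Bool) => sgn (ω k) * l ^ k) (Measure.infinitePi fun _ : ℕ => coin) :=
    hind0.comp (fun k x => sgn x * l ^ k) (fun k => measurable_from_top)
  have hm : ∀ k : ℕ, Measurable fun ω : ℕ → Bool => sgn (ω k) * l ^ k := fun k =>
    (measurable_sgn.comp (measurable_pi_apply k)).mul_const _
  have h := (hind.restrict (range N)).charFun_map_fun_finsetSum_eq_prod (fun k _ => (hm k).aemeasurable)
  have h1 := congrFun h t
  have hl : (fun ω : ℕ → Bool => ∑ i ∈ range N, sgn (ω i) * l ^ i) = ps l N := rfl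
  rw [hl, charFun_apply_real, integral_map (measurable_ps l N).aemeasurable
    (by fun_prop : Continuous _).aestronglyMeasurable] at h1
  rw [h1, Finset.prod_apply, Complex.ofReal_prod]
  refine Finset.prod_congr rfl fun k _ => ?_
  have e1 : (Measure.infinitePi fun _ : ℕ => coin).map (fun ω : ℕ → Bool => sgn (ω k) * l ^ k) =
      ((coin.map sgn).map (fun x => l ^ k * x)) := by
    have e2 : (Measure.infinitePi fun _ : ℕ => coin).map (fun ω : ℕ → Bool => ω k) = coin :=
      Measure.infinitePi_map_eval _ k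
    rw [Measure.map_map (by fun_prop) measurable_sgn]
    conv_rhs => rw [← e2]
    rw [Measure.map_map ((measurable_const_mul _).comp measurable_sgn) (measurable_pi_apply k)]
    congr 1
    funext ω
    exact mul_comm _ _
  rw [e1, charFun_map_mul, charFun_sgn, mul_comm]

theorem tendsto_charFun {l : ℝ} (h0 : 0 ≤ l) (h1 : l < 1) (t : ℝ) :
    Tendsto (fun N => ((∏ n ∈ range N, Real.cos (t * l ^ n) : ℝ) : ℂ)) atTop (𝓝 (charFun (nu l) t)) := by
  have e : charFun (nu l) t = ∫ ω, Complex.exp (t * rs l ω * Complex.I) ∂(Measure.infinitePi fun _ : ℕ => coin) := by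
    rw [charFun_apply_real, nu, integral_map (measurable_rs h0 h1).aemeasurable (by fun_prop : Continuous _).aestronglyMeasurable]
  rw [e]
  have h2 : (fun N => ((∏ n ∈ range N, Real.cos (t * l ^ n) : ℝ) : ℂ)) =
      fun N => ∫ ω, Complex.exp (t * ps l N ω * Complex.I) ∂(Measure.infinitePi fun _ : ℕ => coin) :=
    funext fun N => (integral_ps l t N).symm
  rw [h2]
  refine tendsto_integral_of_dominated_convergence (fun _ => 1) ?_ (integrable_const _) ?_ ?_
  · intro N
    have hc : Continuous fun x : ℝ => Complex.exp (t * x * Complex.I) := by fun_prop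
    exact (hc.measurable.comp (measurable_ps l N)).aestronglyMeasurable
  · intro N
    refine ae_of_all _ fun ω => ?_
    rw [← Complex.ofReal_mul, Complex.norm_exp_ofReal_mul_I]
  · refine ae_of_all _ fun ω => ?_
    have hc : Continuous fun x : ℝ => Complex.exp (t * x * Complex.I) := by fun_prop
    exact (hc.tendsto _).comp (tendsto_ps h0 h1 ω)

/-- the absolute value of the characteristic function -/
noncomputable def ff (l t : ℝ) : ℝ := ‖charFun (nu l) t‖

/-- the finite products -/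
noncomputable def PC (l : ℝ) (N : ℕ) (t : ℝ) : ℝ := ∏ n ∈ range N, |Real.cos (t * l ^ n)|

theorem PC_nonneg (l : ℝ) (N : ℕ) (t : ℝ) : 0 ≤ PC l N t := prod_nonneg fun _ _ => abs_nonneg _

theorem PC_le_one (l : ℝ) (N : ℕ) (t : ℝ) : PC l N t ≤ 1 :=
  prod_le_one (fun _ _ => abs_nonneg _) fun _ _ => Real.abs_cos_le_one _

theorem tendsto_PC {l : ℝ} (h0 : 0 ≤ l) (h1 : l < 1) (t : ℝ) :
    Tendsto (fun N => PC l N t) atTop (𝓝 (ff l t)) := by
  have h := (tendsto_charFun h0 h1 t).norm
  have e : (fun N => ‖((∏ n ∈ range N, Real.cos (t * l ^ n) : ℝ) : ℂ)‖) = fun N => PC l N t := by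
    funext N
    rw [Complex.norm_real, Real.norm_eq_abs, abs_prod, PC]
  rw [e] at h
  exact h

theorem ff_nonneg (l t : ℝ) : 0 ≤ ff l t := norm_nonneg _

theorem ff_le_one {l : ℝ} (h0 : 0 ≤ l) (h1 : l < 1) (t : ℝ) : ff l t ≤ 1 := by
  have := nu_prob h0 h1
  exact norm_charFun_le_one t

theorem continuous_ff {l : ℝ} (h0 : 0 ≤ l) (h1 : l < 1) : Continuous (ff l) := by
  have := nu_prob h0 h1
  exact continuous_charFun.norm

theorem ff_neg (l t : ℝ) : ff l (-t) = ff l t := by
  rw [ff, charFun_neg, RCLike.norm_conj, ff]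

theorem PC_add (l : ℝ) (N M : ℕ) (t : ℝ) : PC l (N + M) t = PC l N t * PC l M (t * l ^ N) := by
  rw [PC, prod_range_add, PC, PC]
  congr 1
  refine prod_congr rfl fun n _ => ?_
  rw [pow_add, mul_assoc]

theorem ff_self {l : ℝ} (h0 : 0 ≤ l) (h1 : l < 1) (N : ℕ) (t : ℝ) :
    ff l t = PC l N t * ff l (t * l ^ N) := by
  have h2 : Tendsto (fun M => PC l (M + N) t) atTop (𝓝 (ff l t)) :=
    (tendsto_add_atTop_iff_nat N).2 (tendsto_PC h0 h1 t)
  have h3 : Tendsto (fun M => PC l (M + N) t) atTop (𝓝 (PC l N t * ff l (t * l ^ N))) := by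
    have e : (fun M => PC l (M + N) t) = fun M => PC l N t * PC l M (t * l ^ N) := by
      funext M
      rw [add_comm, PC_add]
    rw [e]
    exact (tendsto_PC h0 h1 _).const_mul _
  exact tendsto_nhds_unique h2 h3

/-- splitting into even and odd indices -/
theorem PC_split (l : ℝ) (N : ℕ) (t : ℝ) : PC l (2 * N) t = PC (l ^ 2) N t * PC (l ^ 2) N (t * l) := by
  induction N with
  | zero => simp [PC]
  | succ n ih =>
    have e : 2 * (n + 1) = 2 * n + 1 + 1 := by ring
    have h1 : PC l (2 * n + 1 + 1) t = PC l (2 * n) t * |Real.cos (t * l ^ (2 * n))| * |Real.cos (t * l ^ (2 * n + 1))| := by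
      rw [PC, prod_range_succ, prod_range_succ, PC]
    have h2 : PC (l ^ 2) (n + 1) t = PC (l ^ 2) n t * |Real.cos (t * l ^ (2 * n))| := by
      rw [PC, prod_range_succ, PC, pow_mul]
    have h3 : PC (l ^ 2) (n + 1) (t * l) = PC (l ^ 2) n (t * l) * |Real.cos (t * l ^ (2 * n + 1))| := by
      have e3 : t * l * (l ^ 2) ^ n = t * l ^ (2 * n + 1) := by
        rw [← pow_mul]
        ring
      rw [PC, prod_range_succ, PC, e3]
    rw [e, h1, h2, h3, ih]
    ring

theorem ff_split {l : ℝ} (h0 : 0 ≤ l) (h1 : l < 1) (t : ℝ) : ff l t = ff (l ^ 2) t * ff (l ^ 2) (t * l) := by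
  have h2 : l ^ 2 < 1 := by nlinarith
  have h3 : Tendsto (fun N => PC l (2 * N) t) atTop (𝓝 (ff l t)) :=
    (tendsto_PC h0 h1 t).comp (tendsto_id.const_mul_atTop' (by norm_num))
  have h4 : Tendsto (fun N => PC l (2 * N) t) atTop (𝓝 (ff (l ^ 2) t * ff (l ^ 2) (t * l))) := by
    have e : (fun N => PC l (2 * N) t) = fun N => PC (l ^ 2) N t * PC (l ^ 2) N (t * l) :=
      funext fun N => PC_split l N t
    rw [e]
    exact (tendsto_PC (sq_nonneg l) h2 t).mul (tendsto_PC (sq_nonneg l) h2 _)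
  exact tendsto_nhds_unique h3 h4

theorem PC_lower {l : ℝ} (h0 : 0 ≤ l) (h1 : l ≤ 3 / 4) (t : ℝ) (N : ℕ) :
    1 - t ^ 2 * (3 / 2) * (1 - (9 / 16) ^ N) ≤ PC l N t := by
  induction N with
  | zero => simp [PC]
  | succ n ih =>
    have hl : l ^ n ≤ (3 / 4) ^ n := pow_le_pow_left₀ h0 h1 n
    have hl0 : 0 ≤ l ^ n := pow_nonneg h0 n
    have e1 : PC l (n + 1) t = PC l n t * |Real.cos (t * l ^ n)| := by rw [PC, prod_range_succ, PC]
    have h2 : 1 - (t * l ^ n) ^ 2 / 2 ≤ |Real.cos (t * l ^ n)| :=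
      (Real.one_sub_sq_div_two_le_cos).trans (le_abs_self _)
    have h3 : (t * l ^ n) ^ 2 ≤ t ^ 2 * (9 / 16) ^ n := by
      rw [mul_pow]
      refine mul_le_mul_of_nonneg_left ?_ (sq_nonneg t)
      calc (l ^ n) ^ 2 ≤ ((3 / 4) ^ n) ^ 2 := pow_le_pow_left₀ hl0 hl 2
        _ = (9 / 16) ^ n := by rw [← pow_mul, mul_comm, pow_mul]; norm_num
    have h4 := PC_nonneg l n t
    have h5 := PC_le_one l n t
    have h6 := abs_nonneg (Real.cos (t * l ^ n))
    have h7 := Real.abs_cos_le_one (t * l ^ n)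
    have h8 : (0 : ℝ) < (9 / 16) ^ n := by positivity
    have h9 : (0 : ℝ) ≤ t ^ 2 * (9 / 16) ^ n := by positivity
    have h10 : (9 / 16 : ℝ) ^ (n + 1) = (9 / 16) ^ n * (9 / 16) := pow_succ _ _
    have h11 : 0 ≤ (1 - PC l n t) * (1 - |Real.cos (t * l ^ n)|) :=
      mul_nonneg (by linarith) (by linarith)
    rw [e1, h10]
    nlinarith

theorem ff_lower {l : ℝ} (h0 : 0 ≤ l) (h1 : l ≤ 3 / 4) {t : ℝ} (ht : |t| ≤ 1 / 2) : 1 / 2 ≤ ff l t := by
  refine ge_of_tendsto' (tendsto_PC h0 (by linarith) t) fun N => ?_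
  refine le_trans ?_ (PC_lower h0 h1 t N)
  have h2 : t ^ 2 ≤ 1 / 4 := by
    rw [← sq_abs]
    have := abs_nonneg t
    nlinarith
  have h3 : (0 : ℝ) < (9 / 16) ^ N := by positivity
  have h4 : (0 : ℝ) ≤ t ^ 2 := sq_nonneg t
  have h5 : (9 / 16 : ℝ) ^ N ≤ 1 := pow_le_one₀ (by norm_num) (by norm_num)
  nlinarith

end Pool.Agent.H76.ND
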