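import Mathlib

/-!
# Bernoulli convolutions near `1/√2`, project ND: definitions

`nu l` is the Bernoulli convolution with parameter `l`: the law of the random series `∑ ± l ^ n` with independent fair signs.
-/

set_option autoImplicit false

namespace Pool.Agent.H76.ND

open MeasureTheory

/-- a fair coin -/
noncomputable def coin : Measure Bool := (2⁻¹ : ENNReal) • (Measure.dirac true + Measure.dirac false)

/-- the series `∑ ± l ^ n` for the signs `ω` (`true` is `+`) -/
noncomputable def rs (l : ℝ) (ω : ℕ → Bool) : ℝ := ∑' n, (if ω n then (1 : ℝ) else -1) * l ^ n

/-- the Bernoulli convolution with parameter `l`: the law of the series for independent fair signs -/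
noncomputable def nu (l : ℝ) : Measure ℝ := (Measure.infinitePi fun _ : ℕ => coin).map (rs l)

end Pool.Agent.H76.ND
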