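import Pool.Agent.H76.ND.Pos
import Pool.Agent.H76.ND.Ac

/-!
# Mass of balls from the characteristic function

With the Fejér kernel, `μ {|U| ≤ r} ≤ 4 r ∫_0^{1/r} F` if `∫ cos (t U) dμ ≤ F t`; the balls of `ν` and the energies `(ν × ν) {|x - y| ≤ r}`.
-/

set_option autoImplicit false

namespace Pool.Agent.H76.ND

open MeasureTheory Set Filter Topology Pool.Agent.H76.BC

theorem ess_low {r : ℝ} (hr : 0 < r) {u : ℝ} (hu : |u| ≤ r) :
    1 / r / 4 ≤ ∫ t in (0 : ℝ)..(1 / r), (1 - t / (1 / r)) * Real.cos (t * u) := by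
  have hT : 0 < 1 / r := by positivity
  have h1 : ∫ t in (0 : ℝ)..(1 / r), (1 - t / (1 / r)) * (1 / 2) = 1 / r / 4 := by
    have h2 := fejer_zero hT
    simp only [mul_zero, Real.cos_zero, mul_one] at h2
    rw [intervalIntegral.integral_mul_const, h2]
    ring
  rw [← h1]
  refine intervalIntegral.integral_mono_on hT.le ?_ ?_ fun t ht => ?_
  · apply Continuous.intervalIntegrable
    fun_prop
  · apply Continuous.intervalIntegrable
    fun_prop
  · have h2 : 0 ≤ 1 - t / (1 / r) := by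
      rw [sub_nonneg, div_le_one hT]
      exact ht.2
    have h3 : |t * u| ≤ 1 := by
      rw [abs_mul, abs_of_nonneg ht.1]
      calc t * |u| ≤ 1 / r * r := mul_le_mul ht.2 hu (abs_nonneg _) hT.le
        _ = 1 := by field_simp
    have h4 := Real.one_sub_sq_div_two_le_cos (x := t * u)
    have h5 : (t * u) ^ 2 ≤ 1 := by
      rw [← sq_abs]
      exact pow_le_one₀ (abs_nonneg _) h3
    refine mul_le_mul_of_nonneg_left ?_ h2
    linarith

theorem ess_gen {Ω : Type*} [MeasurableSpace Ω] {μ : Measure Ω} [IsProbabilityMeasure μ] {U : Ω → ℝ} (hU : Measurable U)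
    {F : ℝ → ℝ} (hF : Continuous F) (hF0 : ∀ t, 0 ≤ F t) (h : ∀ t, ∫ ω, Real.cos (t * U ω) ∂μ ≤ F t) {r : ℝ} (hr : 0 < r) :
    μ.real {ω | |U ω| ≤ r} ≤ 4 * r * ∫ t in (0 : ℝ)..(1 / r), F t := by
  have hT : 0 < 1 / r := by positivity
  set φ : ℝ → ℝ := fun u => ∫ t in (0 : ℝ)..(1 / r), (1 - t / (1 / r)) * Real.cos (t * u) with hφ
  have hφ0 : ∀ u, 0 ≤ φ u := fun u => fejer_nonneg hT u
  have hint : Integrable (fun p : Ω × ℝ => (1 - p.2 / (1 / r)) * Real.cos (p.2 * U p.1))
      (μ.prod (volume.restrict (Ioc 0 (1 / r)))) := by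
    have hm : Measurable fun p : Ω × ℝ => (1 - p.2 / (1 / r)) * Real.cos (p.2 * U p.1) := by
      have h1 : Measurable fun p : Ω × ℝ => U p.1 := hU.comp measurable_fst
      exact (measurable_const.sub (measurable_snd.div_const _)).mul (Real.measurable_cos.comp (measurable_snd.mul h1))
    refine Integrable.mono' (integrable_const (1 : ℝ)) hm.aestronglyMeasurable ?_
    have h2 : ∀ᵐ p ∂(μ.prod (volume.restrict (Ioc 0 (1 / r)))), p.2 ∈ Ioc (0 : ℝ) (1 / r) := by
      have h3 : ∀ᵐ t ∂(volume.restrict (Ioc (0 : ℝ) (1 / r))), t ∈ Ioc (0 : ℝ) (1 / r) := ae_restrict_mem measurableSet_Ioc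
      exact Measure.quasiMeasurePreserving_snd.ae h3
    filter_upwards [h2] with p hp
    rw [norm_mul, Real.norm_eq_abs, Real.norm_eq_abs]
    have h4 : 0 ≤ 1 - p.2 / (1 / r) := by
      rw [sub_nonneg, div_le_one hT]
      exact hp.2
    have h5 : 1 - p.2 / (1 / r) ≤ 1 := by
      have : 0 ≤ p.2 / (1 / r) := div_nonneg hp.1.le hT.le
      linarith
    rw [abs_of_nonneg h4]
    exact mul_le_one₀ h5 (abs_nonneg _) (Real.abs_cos_le_one _)
  have hφU : (fun ω => φ (U ω)) = fun ω => ∫ t, (1 - t / (1 / r)) * Real.cos (t * U ω) ∂(volume.restrict (Ioc 0 (1 / r))) := by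
    funext ω
    rw [hφ]
    exact intervalIntegral.integral_of_le hT.le
  have hφi : Integrable (fun ω => φ (U ω)) μ := by
    rw [hφU]
    exact hint.integral_prod_left
  have h1 := mul_meas_ge_le_integral_of_nonneg (Eventually.of_forall fun ω => hφ0 (U ω)) hφi (1 / r / 4)
  have h2 : μ.real {ω | |U ω| ≤ r} ≤ μ.real {ω | 1 / r / 4 ≤ φ (U ω)} := by
    refine measureReal_mono (fun ω hω => ess_low hr hω) (measure_ne_top _ _)
  have h3 : ∫ ω, φ (U ω) ∂μ ≤ ∫ t in (0 : ℝ)..(1 / r), F t := by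
    rw [hφU, integral_integral_swap hint, intervalIntegral.integral_of_le hT.le]
    refine integral_mono_ae hint.integral_prod_right (hF.integrableOn_Icc.mono_set Ioc_subset_Icc_self) ?_
    filter_upwards [ae_restrict_mem measurableSet_Ioc] with t ht
    rw [integral_const_mul]
    have h4 : 0 ≤ 1 - t / (1 / r) := by
      rw [sub_nonneg, div_le_one hT]
      exact ht.2
    have h5 : 1 - t / (1 / r) ≤ 1 := by
      have : 0 ≤ t / (1 / r) := div_nonneg ht.1.le hT.le
      linarith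
    calc (1 - t / (1 / r)) * ∫ ω, Real.cos (t * U ω) ∂μ ≤ (1 - t / (1 / r)) * F t :=
          mul_le_mul_of_nonneg_left (h t) h4
      _ ≤ F t := mul_le_of_le_one_left (hF0 t) h5
  have h6 : 1 / r / 4 * μ.real {ω | |U ω| ≤ r} ≤ ∫ t in (0 : ℝ)..(1 / r), F t :=
    (mul_le_mul_of_nonneg_left h2 (by positivity)).trans (h1.trans h3)
  calc μ.real {ω | |U ω| ≤ r} = 4 * r * (1 / r / 4 * μ.real {ω | |U ω| ≤ r}) := by field_simp
    _ ≤ _ := mul_le_mul_of_nonneg_left h6 (by positivity)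

/-- the mass of an interval -/
theorem ess_ball {l : ℝ} (h0 : 0 ≤ l) (h1 : l < 1) (x : ℝ) {r : ℝ} (hr : 0 < r) :
    (nu l).real (Icc (x - r) (x + r)) ≤ 4 * r * ∫ t in (0 : ℝ)..(1 / r), ff l t := by
  have := nu_prob h0 h1
  have e : Icc (x - r) (x + r) = {y : ℝ | |y - x| ≤ r} := by
    ext y
    rw [mem_Icc]
    show _ ↔ |y - x| ≤ r
    rw [abs_le]
    constructor
    · rintro ⟨h2, h3⟩
      exact ⟨by linarith, by linarith⟩
    · rintro ⟨h2, h3⟩
      exact ⟨by linarith, by linarith⟩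
  rw [e]
  refine ess_gen (measurable_id.sub_const x) (continuous_ff h0 h1) (ff_nonneg l) (fun t => ?_) hr
  have hc : Integrable (fun y : ℝ => Complex.exp (t * (y - x) * Complex.I)) (nu l) := by
    refine Integrable.mono' (integrable_const (1 : ℝ)) (by fun_prop : Continuous _).aestronglyMeasurable ?_
    refine ae_of_all _ fun y => ?_
    rw [← Complex.ofReal_sub, ← Complex.ofReal_mul, Complex.norm_exp_ofReal_mul_I]
  have h2 : ∫ y, Real.cos (t * (id y - x)) ∂(nu l) = (∫ y : ℝ, Complex.exp (t * (y - x) * Complex.I) ∂(nu l)).re := by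
    have h3 := integral_re hc
    simp only [RCLike.re_to_complex] at h3
    rw [← h3]
    refine integral_congr_ae (ae_of_all _ fun y => ?_)
    show Real.cos (t * (y - x)) = (Complex.exp (t * (y - x) * Complex.I)).re
    rw [← Complex.ofReal_sub, ← Complex.ofReal_mul, Complex.exp_ofReal_mul_I_re]
  have h3 : ∫ y : ℝ, Complex.exp (t * (y - x) * Complex.I) ∂(nu l) =
      charFun (nu l) t * Complex.exp (-(t * x) * Complex.I) := by
    rw [charFun_apply_real, ← integral_mul_const]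
    refine integral_congr_ae (ae_of_all _ fun y => ?_)
    show Complex.exp (t * (y - x) * Complex.I) = Complex.exp (t * y * Complex.I) * Complex.exp (-(t * x) * Complex.I)
    rw [← Complex.exp_add]
    congr 1
    ring
  have h4 : ‖Complex.exp (-(t * x) * Complex.I)‖ = 1 := by
    rw [← Complex.ofReal_mul, ← Complex.ofReal_neg, Complex.norm_exp_ofReal_mul_I]
  show ∫ y, Real.cos (t * (id y - x)) ∂(nu l) ≤ ff l t
  rw [h2, h3]
  refine (Complex.re_le_norm _).trans ?_
  rw [norm_mul, h4, mul_one, ff]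

/-- the energy of scale `r` -/
theorem ess_energy {l : ℝ} (h0 : 0 ≤ l) (h1 : l < 1) {r : ℝ} (hr : 0 < r) :
    ((nu l).prod (nu l)).real {p : ℝ × ℝ | |p.1 - p.2| ≤ r} ≤ 4 * r * ∫ t in (0 : ℝ)..(1 / r), ff l t ^ 2 := by
  have := nu_prob h0 h1
  refine ess_gen (μ := (nu l).prod (nu l)) (U := fun p : ℝ × ℝ => p.1 - p.2) (measurable_fst.sub measurable_snd)
    ((continuous_ff h0 h1).pow 2) (fun t => sq_nonneg _) (fun t => ?_) hr
  have hc : Integrable (fun p : ℝ × ℝ => Complex.exp (t * p.1 * Complex.I) * Complex.exp (-t * p.2 * Complex.I))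
      ((nu l).prod (nu l)) := by
    refine Integrable.mono' (integrable_const (1 : ℝ)) (by fun_prop : Continuous _).aestronglyMeasurable ?_
    refine ae_of_all _ fun y => ?_
    rw [norm_mul, ← Complex.ofReal_mul, Complex.norm_exp_ofReal_mul_I, ← Complex.ofReal_neg, ← Complex.ofReal_mul,
      Complex.norm_exp_ofReal_mul_I, mul_one]
  have h2 : ∫ p : ℝ × ℝ, Real.cos (t * (p.1 - p.2)) ∂((nu l).prod (nu l)) =
      (∫ p : ℝ × ℝ, Complex.exp (t * p.1 * Complex.I) * Complex.exp (-t * p.2 * Complex.I) ∂((nu l).prod (nu l))).re := by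
    have h3 := integral_re hc
    simp only [RCLike.re_to_complex] at h3
    rw [← h3]
    refine integral_congr_ae (ae_of_all _ fun p => ?_)
    show Real.cos (t * (p.1 - p.2)) = (Complex.exp (t * p.1 * Complex.I) * Complex.exp (-t * p.2 * Complex.I)).re
    rw [← Complex.exp_add, ← Complex.exp_ofReal_mul_I_re]
    congr 2
    push_cast
    ring
  have h3 : ∫ p : ℝ × ℝ, Complex.exp (t * p.1 * Complex.I) * Complex.exp (-t * p.2 * Complex.I) ∂((nu l).prod (nu l)) =
      charFun (nu l) t * charFun (nu l) (-t) := by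
    rw [integral_prod_mul (fun x : ℝ => Complex.exp (t * x * Complex.I)) (fun y : ℝ => Complex.exp (-t * y * Complex.I)),
      charFun_apply_real, charFun_apply_real]
    congr 2
    push_cast
    rfl
  show ∫ p : ℝ × ℝ, Real.cos (t * (p.1 - p.2)) ∂((nu l).prod (nu l)) ≤ ff l t ^ 2
  rw [h2, h3]
  refine (Complex.re_le_norm _).trans ?_
  rw [norm_mul]
  show ff l t * ff l (-t) ≤ ff l t ^ 2
  rw [ff_neg, sq]

end Pool.Agent.H76.ND
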