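import Pool.Agent.H76.ND.Bnd
import Pool.Agent.H76.ND.Ess

/-!
# The theorem near `1/√2`

With `δ = |l - 1/√2|` and `D = δ log² δ` the bounds of `Bnd` hold with `X = 1 / (256 D)`.
-/

set_option autoImplicit false

namespace Pool.Agent.H76.ND

open MeasureTheory Set Filter Topology

theorem fin_n {M : ℝ} (hM : 1152 ≤ M) : ∃ n : ℕ, 2 * M ≤ 2 ^ n ∧ (n : ℝ) ≤ 2 * Real.log M := by
  have hM0 : 0 < M := by linarith
  refine ⟨⌈Real.logb 2 (2 * M)⌉₊, ?_, ?_⟩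
  · have h1 := Nat.le_ceil (Real.logb 2 (2 * M))
    have h2 : (2 : ℝ) ^ (Real.logb 2 (2 * M)) ≤ (2 : ℝ) ^ ((⌈Real.logb 2 (2 * M)⌉₊ : ℕ) : ℝ) :=
      Real.rpow_le_rpow_of_exponent_le (by norm_num) h1
    rwa [Real.rpow_logb (by norm_num) (by norm_num) (by positivity), Real.rpow_natCast] at h2
  · have h0 : 0 ≤ Real.logb 2 (2 * M) := Real.logb_nonneg (by norm_num) (by linarith)
    have h1 := (Nat.ceil_lt_add_one h0).le
    have h2 : Real.logb 2 (2 * M) = 1 + Real.log M / Real.log 2 := by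
      rw [Real.logb_mul (by norm_num) hM0.ne', Real.logb_self_eq_one (by norm_num), Real.logb]
    have hc := Real.log_two_gt_d9
    have h3 : 10 * Real.log 2 ≤ Real.log M := by
      have h4 : Real.log ((2 : ℝ) ^ 10) ≤ Real.log M := Real.log_le_log (by norm_num) (by linarith)
      rwa [Real.log_pow, Nat.cast_ofNat] at h4
    have h5 : Real.log M / Real.log 2 ≤ 3 / 2 * Real.log M := by
      rw [div_le_iff₀ (by linarith)]
      nlinarith
    linarith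

theorem fin_D {δ : ℝ} (h0 : 0 < δ) (h1 : δ ≤ (10 ^ 14)⁻¹) : 0 < δ * Real.log δ ^ 2 ∧
    δ * Real.log δ ^ 2 ≤ 1 / 294912 ∧ Real.log δ ≤ -1 := by
  have hl : Real.log δ ≤ -1 := by
    have h2 := Real.log_le_sub_one_of_pos h0
    have h3 : Real.log δ ≤ Real.log ((10 ^ 14)⁻¹) := Real.log_le_log h0 h1
    rw [Real.log_inv, Real.log_pow] at h3
    have h4 : Real.log 2 ≤ Real.log 10 := Real.log_le_log (by norm_num) (by norm_num)
    have h5 := Real.log_two_gt_d9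
    push_cast at h3
    linarith
  have hsq : 0 < Real.log δ ^ 2 := by nlinarith
  refine ⟨mul_pos h0 hsq, ?_, hl⟩
  have h2 := Real.log_le_rpow_div (x := δ⁻¹) (by positivity) (show (0 : ℝ) < 1 / 4 by norm_num)
  rw [Real.log_inv] at h2
  have h3 : Real.log δ ^ 2 ≤ (δ⁻¹ ^ (1 / 4 : ℝ) / (1 / 4)) ^ 2 := by
    have h4 : Real.log δ ^ 2 = (-Real.log δ) ^ 2 := by ring
    rw [h4]
    exact pow_le_pow_left₀ (by linarith) h2 2
  have h4 : (δ⁻¹ ^ (1 / 4 : ℝ) / (1 / 4)) ^ 2 = 16 * δ⁻¹ ^ (1 / 2 : ℝ) := by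
    have e : (δ⁻¹ ^ (1 / 4 : ℝ)) ^ 2 = δ⁻¹ ^ (1 / 2 : ℝ) := by
      rw [← Real.rpow_natCast, ← Real.rpow_mul (by positivity)]
      norm_num
    rw [div_pow, e]
    ring
  rw [h4, Real.inv_rpow h0.le, ← Real.sqrt_eq_rpow] at h3
  have h5 : Real.sqrt δ ≤ 1 / 10 ^ 7 := by
    rw [Real.sqrt_le_left (by positivity)]
    calc δ ≤ (10 ^ 14)⁻¹ := h1
      _ = (1 / 10 ^ 7) ^ 2 := by norm_num
  have h6 : 0 < Real.sqrt δ := Real.sqrt_pos.2 h0
  calc δ * Real.log δ ^ 2 ≤ δ * (16 * (Real.sqrt δ)⁻¹) := mul_le_mul_of_nonneg_left h3 h0.le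
    _ = 16 * Real.sqrt δ := by
        nth_rewrite 1 [← Real.mul_self_sqrt h0.le]
        field_simp
    _ ≤ 1 / 294912 := by linarith

theorem fin_kappa {l : ℝ} (h1 : |l - 1 / Real.sqrt 2| ≤ (10 ^ 14)⁻¹) :
    0 < l ∧ |l ^ 2 - 1 / 2| ≤ 2 * |l - 1 / Real.sqrt 2| := by
  have hs : (1 / Real.sqrt 2) ^ 2 = 1 / 2 := by
    rw [div_pow, Real.sq_sqrt (by norm_num), one_pow]
  have hs0 : 0 < 1 / Real.sqrt 2 := by positivity
  have h2 := abs_le.1 h1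
  have h3 : 1 / 2 ≤ 1 / Real.sqrt 2 := by nlinarith
  have h4 : 1 / Real.sqrt 2 ≤ 3 / 4 := by nlinarith
  have h5 : ((10 : ℝ) ^ 14)⁻¹ ≤ 1 / 4 := by norm_num
  refine ⟨by linarith, ?_⟩
  have e : l ^ 2 - 1 / 2 = (l - 1 / Real.sqrt 2) * (l + 1 / Real.sqrt 2) := by
    rw [← hs]
    ring
  rw [e, abs_mul, mul_comm 2]
  refine mul_le_mul_of_nonneg_left ?_ (abs_nonneg _)
  rw [abs_le]
  constructor <;> linarith

theorem fin_bounds {l : ℝ} (h0 : 0 < |l - 1 / Real.sqrt 2|) (h1 : |l - 1 / Real.sqrt 2| ≤ (10 ^ 14)⁻¹) {T : ℝ} (hT : 1 ≤ T) :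
    GG l T ≤ 21 * T ^ (10 ^ 14 * (|l - 1 / Real.sqrt 2| * Real.log |l - 1 / Real.sqrt 2| ^ 2) ^ 3) ∧
    ∫ t in (0 : ℝ)..T, ff l t ≤ 20 * T ^ (10 ^ 14 * (|l - 1 / Real.sqrt 2| * Real.log |l - 1 / Real.sqrt 2| ^ 2)) := by
  obtain ⟨hl, hk⟩ := fin_kappa h1
  obtain ⟨hD0, hD1, hL⟩ := fin_D h0 h1
  set δ := |l - 1 / Real.sqrt 2| with hδ
  set D := δ * Real.log δ ^ 2 with hD
  have hM : 1152 ≤ 1 / (256 * D) := by
    rw [le_div_iff₀ (by positivity)]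
    linarith
  obtain ⟨n, hn1, hn2⟩ := fin_n hM
  have hlM : Real.log (1 / (256 * D)) ≤ -Real.log δ := by
    rw [← Real.log_inv]
    refine Real.log_le_log (by positivity) ?_
    rw [one_div]
    refine inv_anti₀ h0 ?_
    have h3 : 1 ≤ Real.log δ ^ 2 := by nlinarith
    have h4 := mul_le_mul_of_nonneg_left h3 h0.le
    rw [hD]
    linarith
  have hlM0 : 0 ≤ Real.log (1 / (256 * D)) := Real.log_nonneg (by linarith)
  have hnn : (n : ℝ) ^ 2 ≤ 4 * Real.log δ ^ 2 := by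
    have h2 : (n : ℝ) ≤ 2 * -Real.log δ := by linarith
    calc (n : ℝ) ^ 2 ≤ (2 * -Real.log δ) ^ 2 := pow_le_pow_left₀ (Nat.cast_nonneg n) h2 2
      _ = 4 * Real.log δ ^ 2 := by ring
  have hc : 32 * (2 * δ) * (n : ℝ) ^ 2 * (1 / (256 * D)) ≤ 1 := by
    rw [mul_one_div, div_le_one (by positivity), hD]
    calc 32 * (2 * δ) * (n : ℝ) ^ 2 ≤ 32 * (2 * δ) * (4 * Real.log δ ^ 2) :=
          mul_le_mul_of_nonneg_left hnn (by positivity)
      _ = 256 * (δ * Real.log δ ^ 2) := by ring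
  have hG := GG_l hl hk hM hn1 hc hT
  have hL1 := L1_l hl hk hM hn1 hc hT
  constructor
  · refine hG.trans (mul_le_mul_of_nonneg_left (Real.rpow_le_rpow_of_exponent_le hT ?_) (by norm_num))
    have e : 373248 / (1 / (256 * D)) ^ 3 = 373248 * 256 ^ 3 * D ^ 3 := by
      field_simp
    rw [e]
    exact mul_le_mul_of_nonneg_right (by norm_num) (by positivity)
  · refine hL1.trans (mul_le_mul_of_nonneg_left (Real.rpow_le_rpow_of_exponent_le hT ?_) (by norm_num))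
    have e : 4608 / (1 / (256 * D)) = 4608 * 256 * D := by
      field_simp
    rw [e]
    exact mul_le_mul_of_nonneg_right (by norm_num) (by positivity)

/-- with a decay of the characteristic function the energy is bounded -/
theorem fin_energy {l : ℝ} (h0 : 0 ≤ l) (h1 : l < 1) {θ η K : ℝ} (hθ : θ < η)
    (hL1 : ∀ T : ℝ, 1 ≤ T → ∫ t in (0 : ℝ)..T, ff l t ≤ 20 * T ^ θ)
    (hK : ∀ t : ℝ, 1 ≤ t → ff l t ≤ K * t ^ (-η)) (hη : 0 ≤ η) :
    ∃ B : ℝ, 0 ≤ B ∧ ∀ T : ℝ, 1 ≤ T → GG l T ≤ B := by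
  have hK0 : 0 ≤ K := by
    have h2 := hK 1 le_rfl
    rw [Real.one_rpow, mul_one] at h2
    exact (ff_nonneg l 1).trans h2
  have hcf : Continuous fun t => ff l t ^ 2 := (continuous_ff h0 h1).pow 2
  set q : ℝ := (2 : ℝ) ^ (θ - η) with hq
  have hq0 : 0 < q := Real.rpow_pos_of_pos (by norm_num) _
  have hq1 : q < 1 := Real.rpow_lt_one_of_one_lt_of_neg (by norm_num) (by linarith)
  set A : ℝ := 20 * K * (2 : ℝ) ^ θ with hA
  have hA0 : 0 ≤ A := by positivity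
  have hstep : ∀ k : ℕ, ∫ t in ((2 : ℝ) ^ k)..((2 : ℝ) ^ (k + 1)), ff l t ^ 2 ≤ A * q ^ k := by
    intro k
    have h2k : (1 : ℝ) ≤ 2 ^ k := one_le_pow₀ (by norm_num)
    have h2k0 : (0 : ℝ) < 2 ^ k := by positivity
    have h2k1 : (2 : ℝ) ^ k ≤ 2 ^ (k + 1) := pow_le_pow_right₀ (by norm_num) (Nat.le_succ k)
    have h3 : ∫ t in ((2 : ℝ) ^ k)..((2 : ℝ) ^ (k + 1)), ff l t ^ 2 ≤
        ∫ t in ((2 : ℝ) ^ k)..((2 : ℝ) ^ (k + 1)), (K * ((2 : ℝ) ^ k) ^ (-η)) * ff l t := by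
      refine intervalIntegral.integral_mono_on h2k1 (hcf.intervalIntegrable _ _)
        ((continuous_const.mul (continuous_ff h0 h1)).intervalIntegrable _ _) fun t ht => ?_
      rw [sq]
      refine mul_le_mul_of_nonneg_right ?_ (ff_nonneg l t)
      refine (hK t (h2k.trans ht.1)).trans (mul_le_mul_of_nonneg_left ?_ hK0)
      exact Real.rpow_le_rpow_of_nonpos h2k0 ht.1 (by linarith)
    rw [intervalIntegral.integral_const_mul] at h3
    have h4 : ∫ t in ((2 : ℝ) ^ k)..((2 : ℝ) ^ (k + 1)), ff l t ≤ 20 * ((2 : ℝ) ^ (k + 1)) ^ θ := by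
      refine le_trans ?_ (hL1 _ (h2k.trans h2k1))
      have h5 := intervalIntegral.integral_add_adjacent_intervals
        ((continuous_ff h0 h1).intervalIntegrable (μ := volume) 0 ((2 : ℝ) ^ k))
        ((continuous_ff h0 h1).intervalIntegrable (μ := volume) ((2 : ℝ) ^ k) ((2 : ℝ) ^ (k + 1)))
      have h6 : 0 ≤ ∫ t in (0 : ℝ)..((2 : ℝ) ^ k), ff l t :=
        intervalIntegral.integral_nonneg h2k0.le fun t _ => ff_nonneg l t
      linarith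
    refine h3.trans ((mul_le_mul_of_nonneg_left h4 (by positivity)).trans (le_of_eq ?_))
    have e1 : ((2 : ℝ) ^ k) ^ (-η) = ((2 : ℝ) ^ (-η)) ^ k := by
      rw [← Real.rpow_natCast, ← Real.rpow_natCast, ← Real.rpow_mul (by norm_num), ← Real.rpow_mul (by norm_num), mul_comm]
    have e2 : ((2 : ℝ) ^ (k + 1)) ^ θ = (2 : ℝ) ^ θ * ((2 : ℝ) ^ θ) ^ k := by
      rw [← Real.rpow_natCast, ← Real.rpow_mul (by norm_num), mul_comm, Real.rpow_mul (by norm_num), Real.rpow_natCast, pow_succ]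
      ring
    have e3 : q = (2 : ℝ) ^ θ * (2 : ℝ) ^ (-η) := by
      rw [hq, ← Real.rpow_add (by norm_num)]
      rfl
    rw [e1, e2, hA, e3, mul_pow]
    ring
  have hsum : ∀ m : ℕ, GG l ((2 : ℝ) ^ m) ≤ 1 + A * ∑ k ∈ Finset.range m, q ^ k := by
    intro m
    induction m with
    | zero =>
      rw [pow_zero, Finset.range_zero, Finset.sum_empty, mul_zero, add_zero]
      have h4 : ∫ t in (0 : ℝ)..1, ff l t ^ 2 ≤ ∫ _t in (0 : ℝ)..1, (1 : ℝ) := by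
        refine intervalIntegral.integral_mono_on zero_le_one (hcf.intervalIntegrable _ _) (by simp) fun t _ => ?_
        exact pow_le_one₀ (ff_nonneg l t) (ff_le_one h0 h1 t)
      simpa [GG] using h4
    | succ m ih =>
      have h5 := intervalIntegral.integral_add_adjacent_intervals
        (hcf.intervalIntegrable (μ := volume) 0 ((2 : ℝ) ^ m))
        (hcf.intervalIntegrable (μ := volume) ((2 : ℝ) ^ m) ((2 : ℝ) ^ (m + 1)))
      have h6 := hstep m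
      rw [Finset.sum_range_succ, mul_add]
      unfold GG at ih ⊢
      linarith
  refine ⟨1 + A * (1 - q)⁻¹, add_nonneg zero_le_one (mul_nonneg hA0 (inv_nonneg.2 (by linarith))), fun T hT => ?_⟩
  obtain ⟨m, hm⟩ := pow_unbounded_of_one_lt T (show (1 : ℝ) < 2 by norm_num)
  refine (GG_mono h0 h1 hm.le).trans ((hsum m).trans ?_)
  have h7 : ∑ k ∈ Finset.range m, q ^ k ≤ (1 - q)⁻¹ := by
    rw [← tsum_geometric_of_lt_one hq0.le hq1]
    exact (summable_geometric_of_lt_one hq0.le hq1).sum_le_tsum _ fun _ _ => by positivity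
  have h8 := mul_le_mul_of_nonneg_left h7 hA0
  linarith

theorem fin_rpow {r a : ℝ} (hr : 0 < r) : r * (1 / r) ^ a = r ^ (1 - a) := by
  rw [Real.rpow_sub hr, Real.rpow_one, one_div, Real.inv_rpow hr.le]
  rfl

theorem fin_one {l : ℝ} (h1 : |l - 1 / Real.sqrt 2| ≤ (10 ^ 14)⁻¹) : 0 < l ∧ l < 1 := by
  obtain ⟨hl, hk⟩ := fin_kappa h1
  refine ⟨hl, ?_⟩
  have h2 := (abs_le.1 hk).2
  have h3 : ((10 : ℝ) ^ 14)⁻¹ ≤ 1 / 10 := by norm_num
  nlinarith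

/-- the mass of the intervals -/
theorem fin_ball {l : ℝ} (h0 : 0 < |l - 1 / Real.sqrt 2|) (h1 : |l - 1 / Real.sqrt 2| ≤ (10 ^ 14)⁻¹) (x : ℝ) {r : ℝ} (hr : 0 < r)
    (hr1 : r ≤ 1) : (nu l).real (Icc (x - r) (x + r)) ≤
      10 ^ 14 * r ^ (1 - 10 ^ 14 * (|l - 1 / Real.sqrt 2| * Real.log |l - 1 / Real.sqrt 2| ^ 2)) := by
  obtain ⟨hl, hl1⟩ := fin_one h1
  have h2 := (fin_bounds h0 h1 ((one_le_div hr).2 hr1)).2
  set D := |l - 1 / Real.sqrt 2| * Real.log |l - 1 / Real.sqrt 2| ^ 2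
  have h3 := ess_ball hl.le hl1 x hr
  have h4 := mul_le_mul_of_nonneg_left h2 (show 0 ≤ 4 * r by positivity)
  have h5 : 4 * r * (20 * (1 / r) ^ (10 ^ 14 * D)) = 80 * r ^ (1 - 10 ^ 14 * D) := by
    rw [← fin_rpow hr]
    ring
  have h6 : 0 ≤ r ^ (1 - 10 ^ 14 * D) := Real.rpow_nonneg hr.le _
  rw [h5] at h4
  exact h3.trans (h4.trans (mul_le_mul_of_nonneg_right (by norm_num) h6))

/-- the energies -/
theorem fin_en {l : ℝ} (h0 : 0 < |l - 1 / Real.sqrt 2|) (h1 : |l - 1 / Real.sqrt 2| ≤ (10 ^ 14)⁻¹) {r : ℝ} (hr : 0 < r)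
    (hr1 : r ≤ 1) : ((nu l).prod (nu l)).real {p : ℝ × ℝ | |p.1 - p.2| ≤ r} ≤
      10 ^ 14 * r ^ (1 - 10 ^ 14 * (|l - 1 / Real.sqrt 2| * Real.log |l - 1 / Real.sqrt 2| ^ 2) ^ 3) := by
  obtain ⟨hl, hl1⟩ := fin_one h1
  have h2 := (fin_bounds h0 h1 ((one_le_div hr).2 hr1)).1
  set D := |l - 1 / Real.sqrt 2| * Real.log |l - 1 / Real.sqrt 2| ^ 2
  have h3 := ess_energy hl.le hl1 hr
  have h4 := mul_le_mul_of_nonneg_left h2 (show 0 ≤ 4 * r by positivity)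
  have h5 : 4 * r * (21 * (1 / r) ^ (10 ^ 14 * D ^ 3)) = 84 * r ^ (1 - 10 ^ 14 * D ^ 3) := by
    rw [← fin_rpow hr]
    ring
  have h6 : 0 ≤ r ^ (1 - 10 ^ 14 * D ^ 3) := Real.rpow_nonneg hr.le _
  rw [h5] at h4
  exact h3.trans (h4.trans (mul_le_mul_of_nonneg_right (by norm_num) h6))

/-- the criterion for absolute continuity -/
theorem fin_ac {l : ℝ} (h0 : 0 < |l - 1 / Real.sqrt 2|) (h1 : |l - 1 / Real.sqrt 2| ≤ (10 ^ 14)⁻¹) {K η : ℝ}
    (hη : 10 ^ 14 * (|l - 1 / Real.sqrt 2| * Real.log |l - 1 / Real.sqrt 2| ^ 2) < η)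
    (hK : ∀ t : ℝ, 1 ≤ t → ‖charFun (nu l) t‖ ≤ K * t ^ (-η)) :
    ∃ g : ℝ → ℝ, MemLp g 2 volume ∧ nu l = volume.withDensity fun x => ENNReal.ofReal (g x) := by
  obtain ⟨hl, hl1⟩ := fin_one h1
  have hp := nu_prob hl.le hl1
  obtain ⟨B, hB0, hB1⟩ := fin_energy hl.le hl1 hη (fun T hT => (fin_bounds h0 h1 hT).2) hK
    (le_trans (by positivity) hη.le)
  refine ac_main (C := 4 * B) (by positivity) fun r hr hr1 => ?_
  have h3 := ess_energy hl.le hl1 hr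
  have h4 := mul_le_mul_of_nonneg_left (hB1 _ ((one_le_div hr).2 hr1)) (show 0 ≤ 4 * r by positivity)
  unfold GG at h4
  linarith

end Pool.Agent.H76.ND
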