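import Pool.Agent.H76.ND.Pos

/-!
# Growth of the energy

If `ff l ≤ s` on `[X, X / l]`, then the energy `∫_0^T ff²` grows at most like `T ^ (384 X s²)`: on `[X l ^ (-N), X l ^ (-N-1)]` one has `ff² ≤ s² QQ l N`, and the integral
of `QQ l N` there is at most `24 X` times the one over `[0, l ^ (-N) / 2]`, where `QQ l N ≤ 4 ff²`.
-/

set_option autoImplicit false

namespace Pool.Agent.H76.ND

open Finset

/-- the energy -/
noncomputable def GG (l T : ℝ) : ℝ := ∫ t in (0 : ℝ)..T, ff l t ^ 2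

theorem GG_mono {l : ℝ} (h0 : 0 ≤ l) (h1 : l < 1) {S T : ℝ} (hT : S ≤ T) : GG l S ≤ GG l T := by
  have hc : Continuous fun t => ff l t ^ 2 := (continuous_ff h0 h1).pow 2
  have h := intervalIntegral.integral_add_adjacent_intervals (hc.intervalIntegrable (μ := MeasureTheory.volume) 0 S)
    (hc.intervalIntegrable (μ := MeasureTheory.volume) S T)
  have h2 : 0 ≤ ∫ t in S..T, ff l t ^ 2 := intervalIntegral.integral_nonneg hT fun t _ => sq_nonneg _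
  unfold GG
  linarith

theorem GG_nonneg (l : ℝ) {T : ℝ} (hT : 0 ≤ T) : 0 ≤ GG l T :=
  intervalIntegral.integral_nonneg hT fun _ _ => sq_nonneg _

theorem ff_sq_eq {l : ℝ} (h0 : 0 ≤ l) (h1 : l < 1) (N : ℕ) (t : ℝ) :
    ff l t ^ 2 = QQ l N t * ff l (t * l ^ N) ^ 2 := by
  rw [ff_self h0 h1 N t, QQ]
  ring

theorem QQ_le {l : ℝ} (h0 : 0 < l) (h1 : l ≤ 3 / 4) (N : ℕ) :
    ∫ t in (0 : ℝ)..((l⁻¹) ^ N / 2), QQ l N t ≤ 4 * GG l ((l⁻¹) ^ N / 2) := by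
  have hl1 : l < 1 := by linarith
  have hN : 0 < (l⁻¹) ^ N := by positivity
  rw [GG, ← intervalIntegral.integral_const_mul]
  refine intervalIntegral.integral_mono_on (by positivity) ((continuous_QQ l N).intervalIntegrable _ _)
    ((continuous_const.mul ((continuous_ff h0.le hl1).pow 2)).intervalIntegrable _ _) fun t ht => ?_
  rw [ff_sq_eq h0.le hl1 N t]
  have h2 : |t * l ^ N| ≤ 1 / 2 := by
    rw [abs_of_nonneg (mul_nonneg ht.1 (pow_nonneg h0.le N))]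
    calc t * l ^ N ≤ (l⁻¹) ^ N / 2 * l ^ N := mul_le_mul_of_nonneg_right ht.2 (pow_nonneg h0.le N)
      _ = ((l⁻¹) * l) ^ N / 2 := by rw [mul_pow]; ring
      _ = 1 / 2 := by rw [inv_mul_cancel₀ h0.ne', one_pow]
  have h3 := ff_lower h0.le h1 h2
  have h4 := QQ_nonneg l N t
  have h5 : 1 / 4 ≤ ff l (t * l ^ N) ^ 2 := by nlinarith
  nlinarith

theorem grow_step {l : ℝ} (h0 : 2 / 5 ≤ l) (h1 : l ≤ 3 / 4) {X s : ℝ} (hX : 1 ≤ X)
    (hs : ∀ x, X ≤ x → x ≤ X * l⁻¹ → ff l x ≤ s) (N : ℕ) :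
    GG l (X * (l⁻¹) ^ (N + 1)) ≤ (1 + 96 * X * s ^ 2) * GG l (X * (l⁻¹) ^ N) := by
  have hl0 : 0 < l := by linarith
  have hl1 : l < 1 := by linarith
  have hb1 : 1 ≤ l⁻¹ := (one_le_inv₀ hl0).2 hl1.le
  have hb2 : l⁻¹ ≤ 5 / 2 := by
    rw [inv_le_comm₀ hl0 (by norm_num)]
    linarith
  have hN : 0 < (l⁻¹) ^ N := by positivity
  have hc : Continuous fun t => ff l t ^ 2 := (continuous_ff hl0.le hl1).pow 2
  have hcq := continuous_QQ l N
  have hXN : X * (l⁻¹) ^ N ≤ X * (l⁻¹) ^ (N + 1) := by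
    rw [pow_succ]
    have : (l⁻¹) ^ N ≤ (l⁻¹) ^ N * l⁻¹ := le_mul_of_one_le_right hN.le hb1
    exact mul_le_mul_of_nonneg_left this (by linarith)
  have hadd := intervalIntegral.integral_add_adjacent_intervals
    (hc.intervalIntegrable (μ := MeasureTheory.volume) 0 (X * (l⁻¹) ^ N))
    (hc.intervalIntegrable (μ := MeasureTheory.volume) (X * (l⁻¹) ^ N) (X * (l⁻¹) ^ (N + 1)))
  have h2 : ∫ t in (X * (l⁻¹) ^ N)..(X * (l⁻¹) ^ (N + 1)), ff l t ^ 2 ≤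
      ∫ t in (X * (l⁻¹) ^ N)..(X * (l⁻¹) ^ (N + 1)), s ^ 2 * QQ l N t := by
    refine intervalIntegral.integral_mono_on hXN (hc.intervalIntegrable _ _)
      ((continuous_const.mul hcq).intervalIntegrable _ _) fun t ht => ?_
    rw [ff_sq_eq hl0.le hl1 N t, mul_comm]
    refine mul_le_mul_of_nonneg_right ?_ (QQ_nonneg _ _ _)
    have hlN : 0 < l ^ N := by positivity
    have e1 : (l⁻¹) ^ N * l ^ N = 1 := by rw [← mul_pow, inv_mul_cancel₀ hl0.ne', one_pow]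
    have h3 : X ≤ t * l ^ N := by
      calc X = X * (l⁻¹) ^ N * l ^ N := by rw [mul_assoc, e1, mul_one]
        _ ≤ t * l ^ N := mul_le_mul_of_nonneg_right ht.1 hlN.le
    have h4 : t * l ^ N ≤ X * l⁻¹ := by
      calc t * l ^ N ≤ X * (l⁻¹) ^ (N + 1) * l ^ N := mul_le_mul_of_nonneg_right ht.2 hlN.le
        _ = X * l⁻¹ * ((l⁻¹) ^ N * l ^ N) := by rw [pow_succ]; ring
        _ = X * l⁻¹ := by rw [e1, mul_one]
    exact pow_le_pow_left₀ (ff_nonneg _ _) (hs _ h3 h4) 2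
  obtain ⟨k, hk⟩ : ∃ k : ℕ, k = ⌈5 * X⌉₊ := ⟨_, rfl⟩
  have hk1 : 5 * X ≤ k := by rw [hk]; exact Nat.le_ceil _
  have hk2 : (k : ℝ) ≤ 6 * X := by
    have := Nat.ceil_lt_add_one (show 0 ≤ 5 * X by linarith)
    rw [hk]
    linarith
  have h5 : ∫ t in (X * (l⁻¹) ^ N)..(X * (l⁻¹) ^ (N + 1)), QQ l N t ≤ ∫ t in (0 : ℝ)..(k * ((l⁻¹) ^ N / 2)), QQ l N t := by
    have h6 : X * (l⁻¹) ^ (N + 1) ≤ k * ((l⁻¹) ^ N / 2) := by
      rw [pow_succ]
      have h7 : X * l⁻¹ ≤ k / 2 := by nlinarith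
      calc X * ((l⁻¹) ^ N * l⁻¹) = (X * l⁻¹) * (l⁻¹) ^ N := by ring
        _ ≤ (k / 2) * (l⁻¹) ^ N := mul_le_mul_of_nonneg_right h7 hN.le
        _ = k * ((l⁻¹) ^ N / 2) := by ring
    have a1 := intervalIntegral.integral_add_adjacent_intervals
      (hcq.intervalIntegrable (μ := MeasureTheory.volume) 0 (X * (l⁻¹) ^ N))
      (hcq.intervalIntegrable (μ := MeasureTheory.volume) (X * (l⁻¹) ^ N) (X * (l⁻¹) ^ (N + 1)))
    have a2 := intervalIntegral.integral_add_adjacent_intervals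
      (hcq.intervalIntegrable (μ := MeasureTheory.volume) 0 (X * (l⁻¹) ^ (N + 1)))
      (hcq.intervalIntegrable (μ := MeasureTheory.volume) (X * (l⁻¹) ^ (N + 1)) (k * ((l⁻¹) ^ N / 2)))
    have a3 : 0 ≤ ∫ t in (0 : ℝ)..(X * (l⁻¹) ^ N), QQ l N t :=
      intervalIntegral.integral_nonneg (by positivity) fun t _ => QQ_nonneg _ _ _
    have a4 : 0 ≤ ∫ t in (X * (l⁻¹) ^ (N + 1))..(k * ((l⁻¹) ^ N / 2)), QQ l N t :=
      intervalIntegral.integral_nonneg h6 fun t _ => QQ_nonneg _ _ _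
    linarith
  have h8 := pos_mul l N (show 0 < (l⁻¹) ^ N / 2 by positivity) k
  have h9 := QQ_le hl0 h1 N
  have h10 : GG l ((l⁻¹) ^ N / 2) ≤ GG l (X * (l⁻¹) ^ N) := by
    refine GG_mono hl0.le hl1 ?_
    have : (l⁻¹) ^ N ≤ X * (l⁻¹) ^ N := le_mul_of_one_le_left hN.le hX
    linarith
  have h11 : 0 ≤ GG l (X * (l⁻¹) ^ N) := GG_nonneg l (by positivity)
  rw [intervalIntegral.integral_const_mul] at h2
  have h12 : ∫ t in (X * (l⁻¹) ^ N)..(X * (l⁻¹) ^ (N + 1)), QQ l N t ≤ 96 * X * GG l (X * (l⁻¹) ^ N) := by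
    calc ∫ t in (X * (l⁻¹) ^ N)..(X * (l⁻¹) ^ (N + 1)), QQ l N t
        ≤ 4 * k * ∫ t in (0 : ℝ)..((l⁻¹) ^ N / 2), QQ l N t := h5.trans h8
      _ ≤ 4 * k * (4 * GG l (X * (l⁻¹) ^ N)) := by
          refine mul_le_mul_of_nonneg_left (h9.trans ?_) (by positivity)
          linarith
      _ ≤ 4 * (6 * X) * (4 * GG l (X * (l⁻¹) ^ N)) := by
          refine mul_le_mul_of_nonneg_right ?_ (by positivity)
          linarith
      _ = 96 * X * GG l (X * (l⁻¹) ^ N) := by ring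
  have h13 := mul_le_mul_of_nonneg_left h12 (sq_nonneg s)
  unfold GG at *
  nlinarith

theorem exp_quarter : Real.exp (1 / 4) ≤ 4 / 3 := by
  have h := Real.exp_one_lt_d9
  have h2 : Real.exp (1 / 4) ^ 4 = Real.exp 1 := by
    rw [← Real.exp_nat_mul]
    norm_num
  have h3 : Real.exp (1 / 4) ^ 4 ≤ (4 / 3 : ℝ) ^ 4 := by
    rw [h2]
    norm_num
    linarith
  exact (pow_le_pow_iff_left₀ (Real.exp_pos _).le (by norm_num) (by norm_num)).1 h3

theorem grow {l : ℝ} (h0 : 2 / 5 ≤ l) (h1 : l ≤ 3 / 4) {X s : ℝ} (hX : 1 ≤ X)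
    (hs : ∀ x, X ≤ x → x ≤ X * l⁻¹ → ff l x ≤ s) (hε : 96 * X * s ^ 2 ≤ 1) {T : ℝ} (hT : 1 ≤ T) :
    GG l T ≤ 3 * GG l X * T ^ (384 * X * s ^ 2) := by
  have hl0 : 0 < l := by linarith
  have hl1 : l < 1 := by linarith
  obtain ⟨ε, hεd⟩ : ∃ ε : ℝ, ε = 96 * X * s ^ 2 := ⟨_, rfl⟩
  have hε0 : 0 ≤ ε := by rw [hεd]; positivity
  have hGX : 0 ≤ GG l X := GG_nonneg l (by linarith)
  have hb : Real.exp (1 / 4) ≤ l⁻¹ := by
    refine exp_quarter.trans ?_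
    rw [le_inv_comm₀ (by norm_num) hl0]
    linarith
  have hind : ∀ N : ℕ, GG l (X * (l⁻¹) ^ N) ≤ Real.exp (ε * N) * GG l X := by
    intro N
    induction N with
    | zero => simp
    | succ n ih =>
      have h2 := grow_step h0 h1 hX hs n
      rw [← hεd] at h2
      have h3 : 1 + ε ≤ Real.exp ε := by linarith [Real.add_one_le_exp ε]
      have h4 : 0 ≤ GG l (X * (l⁻¹) ^ n) := GG_nonneg l (by positivity)
      calc GG l (X * (l⁻¹) ^ (n + 1)) ≤ (1 + ε) * GG l (X * (l⁻¹) ^ n) := h2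
        _ ≤ Real.exp ε * (Real.exp (ε * n) * GG l X) := mul_le_mul h3 ih h4 (Real.exp_pos _).le
        _ = Real.exp (ε * (n + 1 : ℕ)) * GG l X := by
            rw [← mul_assoc, ← Real.exp_add]
            congr 2
            push_cast
            ring
  obtain ⟨N, hN⟩ : ∃ N : ℕ, N = ⌈4 * Real.log T⌉₊ := ⟨_, rfl⟩
  have hlog : 0 ≤ Real.log T := Real.log_nonneg hT
  have hN1 : 4 * Real.log T ≤ N := by rw [hN]; exact Nat.le_ceil _
  have hN2 : (N : ℝ) ≤ 4 * Real.log T + 1 := by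
    rw [hN]
    exact (Nat.ceil_lt_add_one (by linarith)).le
  have h5 : T ≤ X * (l⁻¹) ^ N := by
    have h6 : Real.exp (Real.log T) ≤ (l⁻¹) ^ N := by
      calc Real.exp (Real.log T) ≤ Real.exp (N * (1 / 4)) := Real.exp_le_exp.2 (by linarith)
        _ = Real.exp (1 / 4) ^ N := by rw [← Real.exp_nat_mul]
        _ ≤ (l⁻¹) ^ N := pow_le_pow_left₀ (Real.exp_pos _).le hb N
    rw [Real.exp_log (by linarith)] at h6
    have h7 : (0 : ℝ) < (l⁻¹) ^ N := by positivity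
    nlinarith
  refine (GG_mono hl0.le hl1 h5).trans ((hind N).trans ?_)
  have h8 : Real.exp (ε * N) ≤ 3 * T ^ (384 * X * s ^ 2) := by
    have e1 : T ^ (384 * X * s ^ 2) = Real.exp (4 * ε * Real.log T) := by
      rw [Real.rpow_def_of_pos (by linarith)]
      congr 1
      rw [hεd]
      ring
    rw [e1]
    have h9 : ε * N ≤ 1 + 4 * ε * Real.log T := by
      have : ε * N ≤ ε * (4 * Real.log T + 1) := mul_le_mul_of_nonneg_left hN2 hε0
      have : ε ≤ 1 := by rw [hεd]; exact hε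
      linarith
    calc Real.exp (ε * N) ≤ Real.exp (1 + 4 * ε * Real.log T) := Real.exp_le_exp.2 h9
      _ = Real.exp 1 * Real.exp (4 * ε * Real.log T) := Real.exp_add _ _
      _ ≤ 3 * Real.exp (4 * ε * Real.log T) := by
          refine mul_le_mul_of_nonneg_right ?_ (Real.exp_pos _).le
          linarith [Real.exp_one_lt_d9]
  calc Real.exp (ε * N) * GG l X ≤ 3 * T ^ (384 * X * s ^ 2) * GG l X := mul_le_mul_of_nonneg_right h8 hGX
    _ = _ := by ring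

end Pool.Agent.H76.ND
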