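import Pool.Agent.H76.ND.Char
import Pool.Agent.H76.BC.Fejer

/-!
# Positive definiteness

`PC l N t ^ 2 = ∏ cos² (t l ^ j) = 4 ^ (-N) ∑_p cos (2 t d_p)`, so with the Fejér kernel the integral over an interval of length `h` is at most four times the
integral over `[0, h]`.
-/

set_option autoImplicit false

namespace Pool.Agent.H76.ND

open Finset Pool.Agent.H76.BC

/-- the square of the finite product -/
noncomputable def QQ (l : ℝ) (N : ℕ) (t : ℝ) : ℝ := PC l N t ^ 2

theorem QQ_nonneg (l : ℝ) (N : ℕ) (t : ℝ) : 0 ≤ QQ l N t := sq_nonneg _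

theorem QQ_eq (l : ℝ) (N : ℕ) (t : ℝ) :
    QQ l N t = ∑ p : (Fin N → Bool) × (Fin N → Bool), (4 ^ N)⁻¹ * Real.cos (t * (2 * dpair l p)) := by
  have h := sum_cos_dpair l N (2 * t)
  rw [← mul_sum]
  have e1 : ∑ p : (Fin N → Bool) × (Fin N → Bool), Real.cos (t * (2 * dpair l p)) =
      ∑ p : (Fin N → Bool) × (Fin N → Bool), Real.cos (2 * t * dpair l p) := by
    refine sum_congr rfl fun p _ => ?_
    congr 1
    ring
  rw [e1, h, ← mul_assoc, inv_mul_cancel₀ (by positivity), one_mul, QQ, PC, ← prod_pow]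
  refine prod_congr rfl fun j _ => ?_
  rw [sq_abs, psi]
  congr 2
  ring

theorem continuous_QQ (l : ℝ) (N : ℕ) : Continuous (QQ l N) := by
  have h : QQ l N = fun t => ∑ p : (Fin N → Bool) × (Fin N → Bool), (4 ^ N)⁻¹ * Real.cos (t * (2 * dpair l p)) :=
    funext (QQ_eq l N)
  rw [h]
  fun_prop

theorem pos_J (l : ℝ) (N : ℕ) (c : ℝ) {T : ℝ} (hT : 0 < T) :
    ∫ s in (0 : ℝ)..T, (1 - s / T) * (QQ l N (c + s) + QQ l N (c - s)) ≤ 2 * ∫ s in (0 : ℝ)..T, QQ l N s := by
  have h1 : ∀ c s : ℝ, (1 - s / T) * (QQ l N (c + s) + QQ l N (c - s)) =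
      ∑ p : (Fin N → Bool) × (Fin N → Bool), (2 * (4 ^ N)⁻¹ * Real.cos (c * (2 * dpair l p))) *
        ((1 - s / T) * Real.cos (s * (2 * dpair l p))) := by
    intro c s
    rw [QQ_eq, QQ_eq, ← sum_add_distrib, mul_sum]
    refine sum_congr rfl fun p _ => ?_
    have e : Real.cos ((c + s) * (2 * dpair l p)) + Real.cos ((c - s) * (2 * dpair l p)) =
        2 * (Real.cos (c * (2 * dpair l p)) * Real.cos (s * (2 * dpair l p))) := by
      rw [add_mul, sub_mul, Real.cos_add, Real.cos_sub]
      ring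
    rw [← mul_add, e]
    ring
  have h2 : ∀ c : ℝ, ∫ s in (0 : ℝ)..T, (1 - s / T) * (QQ l N (c + s) + QQ l N (c - s)) =
      ∑ p : (Fin N → Bool) × (Fin N → Bool), (2 * (4 ^ N)⁻¹ * Real.cos (c * (2 * dpair l p))) *
        ∫ s in (0 : ℝ)..T, (1 - s / T) * Real.cos (s * (2 * dpair l p)) := by
    intro c
    rw [intervalIntegral.integral_congr fun s _ => h1 c s, intervalIntegral.integral_finsetSum]
    · refine sum_congr rfl fun p _ => ?_
      rw [intervalIntegral.integral_const_mul]
    · intro p _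
      apply Continuous.intervalIntegrable
      fun_prop
  have h3 : ∫ s in (0 : ℝ)..T, (1 - s / T) * (QQ l N (c + s) + QQ l N (c - s)) ≤
      ∫ s in (0 : ℝ)..T, (1 - s / T) * (QQ l N (0 + s) + QQ l N (0 - s)) := by
    rw [h2 c, h2 0]
    refine sum_le_sum fun p _ => ?_
    have h4 := fejer_nonneg hT (2 * dpair l p)
    refine mul_le_mul_of_nonneg_right ?_ h4
    rw [zero_mul, Real.cos_zero]
    exact mul_le_mul_of_nonneg_left (Real.cos_le_one _) (by positivity)
  refine h3.trans ?_
  rw [← intervalIntegral.integral_const_mul]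
  have hcq := continuous_QQ l N
  refine intervalIntegral.integral_mono_on hT.le ?_ ?_ fun s hs => ?_
  · apply Continuous.intervalIntegrable
    exact (continuous_const.sub (continuous_id.div_const T)).mul
      ((hcq.comp (continuous_const.add continuous_id)).add (hcq.comp (continuous_const.sub continuous_id)))
  · exact (continuous_const.mul hcq).intervalIntegrable _ _
  · have e0 : QQ l N (0 - s) = QQ l N s := by
      rw [zero_sub, QQ, QQ, PC, PC]
      congr 1
      refine prod_congr rfl fun j _ => ?_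
      rw [neg_mul, Real.cos_neg]
    rw [zero_add, e0]
    have h5 := QQ_nonneg l N s
    have h6 : 0 ≤ s / T := div_nonneg hs.1 hT.le
    nlinarith

theorem pos_def (l : ℝ) (N : ℕ) (a : ℝ) {h : ℝ} (hh : 0 < h) :
    ∫ s in a..(a + h), QQ l N s ≤ 4 * ∫ s in (0 : ℝ)..h, QQ l N s := by
  have h1 := pos_J l N (a + h / 2) hh
  have hcq := continuous_QQ l N
  have hc1 : Continuous fun s => QQ l N (a + h / 2 + s) := hcq.comp (by fun_prop)
  have hc2 : Continuous fun s => QQ l N (a + h / 2 - s) := hcq.comp (by fun_prop)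
  have hc : Continuous fun s => (1 - s / h) * (QQ l N (a + h / 2 + s) + QQ l N (a + h / 2 - s)) :=
    (continuous_const.sub (continuous_id.div_const h)).mul (hc1.add hc2)
  have h2 : ∫ s in (0 : ℝ)..(h / 2), (1 - s / h) * (QQ l N (a + h / 2 + s) + QQ l N (a + h / 2 - s)) ≤
      ∫ s in (0 : ℝ)..h, (1 - s / h) * (QQ l N (a + h / 2 + s) + QQ l N (a + h / 2 - s)) := by
    rw [← intervalIntegral.integral_add_adjacent_intervals (hc.intervalIntegrable 0 (h / 2)) (hc.intervalIntegrable (h / 2) h)]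
    have : 0 ≤ ∫ s in (h / 2)..h, (1 - s / h) * (QQ l N (a + h / 2 + s) + QQ l N (a + h / 2 - s)) := by
      refine intervalIntegral.integral_nonneg (by linarith) fun s hs => ?_
      refine mul_nonneg ?_ (add_nonneg (QQ_nonneg _ _ _) (QQ_nonneg _ _ _))
      rw [sub_nonneg]
      exact (div_le_one hh).2 hs.2
    linarith
  have h3 : ∫ s in (0 : ℝ)..(h / 2), (1 / 2) * (QQ l N (a + h / 2 + s) + QQ l N (a + h / 2 - s)) ≤
      ∫ s in (0 : ℝ)..(h / 2), (1 - s / h) * (QQ l N (a + h / 2 + s) + QQ l N (a + h / 2 - s)) := by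
    refine intervalIntegral.integral_mono_on (by linarith) ?_ (hc.intervalIntegrable _ _) fun s hs => ?_
    · exact (continuous_const.mul (hc1.add hc2)).intervalIntegrable _ _
    · refine mul_le_mul_of_nonneg_right ?_ (add_nonneg (QQ_nonneg _ _ _) (QQ_nonneg _ _ _))
      have : s / h ≤ 1 / 2 := by
        rw [div_le_iff₀ hh]
        linarith [hs.2]
      linarith
  have h4 : ∫ s in (0 : ℝ)..(h / 2), (1 / 2) * (QQ l N (a + h / 2 + s) + QQ l N (a + h / 2 - s)) =
      (1 / 2) * ∫ s in a..(a + h), QQ l N s := by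
    rw [intervalIntegral.integral_const_mul, intervalIntegral.integral_add (hc1.intervalIntegrable _ _)
      (hc2.intervalIntegrable _ _), intervalIntegral.integral_comp_add_left, intervalIntegral.integral_comp_sub_left]
    have e1 : a + h / 2 + h / 2 = a + h := by ring
    have e2 : a + h / 2 - h / 2 = a := by ring
    rw [add_zero, sub_zero, e1, e2, add_comm,
      intervalIntegral.integral_add_adjacent_intervals (hcq.intervalIntegrable _ _) (hcq.intervalIntegrable _ _)]
  linarith

theorem pos_mul (l : ℝ) (N : ℕ) {h : ℝ} (hh : 0 < h) (k : ℕ) :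
    ∫ s in (0 : ℝ)..(k * h), QQ l N s ≤ 4 * k * ∫ s in (0 : ℝ)..h, QQ l N s := by
  have hcq := continuous_QQ l N
  induction k with
  | zero => simp
  | succ n ih =>
    have h1 := pos_def l N (n * h) hh
    have e1 : ((n + 1 : ℕ) : ℝ) * h = n * h + h := by push_cast; ring
    rw [e1, ← intervalIntegral.integral_add_adjacent_intervals (hcq.intervalIntegrable 0 (n * h))
      (hcq.intervalIntegrable (n * h) (n * h + h))]
    push_cast
    linarith

end Pool.Agent.H76.ND
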